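import Pool.Agent.H361R2.PP.Iface5

/-! Project PP: increasing runs of gaps between consecutive primes. -/

set_option autoImplicit false

open Finset

namespace Pool.Agent.H662R2.PPRun

open Pool.Agent.H361R2.PP

theorem P_prime (j : ℕ) : (P j).Prime := Nat.prime_nth_prime j

theorem P_inj {i j : ℕ} (h : P i = P j) : i = j :=
  Nat.nth_injective Nat.infinite_setOfPred_prime h

/-- for large `X` the window has length at most `X` -/
theorem exists_log (Λ : ℝ) (hΛ : 0 < Λ) : ∃ X₁ : ℕ, ∀ X : ℕ, X₁ ≤ X → Λ * Real.log X ≤ X := by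
  have h := Real.isLittleO_log_id_atTop.bound (c := 1 / Λ) (by positivity)
  have h2 := tendsto_natCast_atTop_atTop (R := ℝ) |>.eventually h
  obtain ⟨X₁, hX₁⟩ := Filter.eventually_atTop.1 h2
  refine ⟨max X₁ 1, fun X hX => ?_⟩
  have h3 := hX₁ X (le_trans (le_max_left _ _) hX)
  have hX1 : 1 ≤ X := le_trans (le_max_right _ _) hX
  have hXr : (1 : ℝ) ≤ X := by exact_mod_cast hX1
  simp only [id, Real.norm_eq_abs] at h3
  rw [abs_of_nonneg (Real.log_nonneg hXr), abs_of_nonneg (by linarith)] at h3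
  calc Λ * Real.log X ≤ Λ * (1 / Λ * X) := mul_le_mul_of_nonneg_left h3 hΛ.le
    _ = X := by field_simp

/-- the clusters -/
noncomputable def al (A B : ℝ) (k : ℕ) (i : Fin k) : ℝ := A * B ^ (i : ℕ)

theorem al_ge {A B : ℝ} (hA : 1 ≤ A) (hB : 2 ≤ B) {k : ℕ} (i : Fin k) : A ≤ al A B k i := by
  unfold al
  have : 1 ≤ B ^ (i : ℕ) := one_le_pow₀ (by linarith)
  nlinarith

theorem al_mul {A B : ℝ} (hA : 1 ≤ A) (hB : 2 ≤ B) {k : ℕ} {i j : Fin k} (h : i < j) :
    B * al A B k i ≤ al A B k j := by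
  unfold al
  have h1 : B ^ ((i : ℕ) + 1) ≤ B ^ (j : ℕ) := pow_le_pow_right₀ (by linarith) (by exact h)
  calc B * (A * B ^ (i : ℕ)) = A * B ^ ((i : ℕ) + 1) := by ring
    _ ≤ A * B ^ (j : ℕ) := mul_le_mul_of_nonneg_left h1 (by linarith)

theorem al_lt {A B : ℝ} (hA : 1 ≤ A) (hB : 2 ≤ B) {k : ℕ} {i j : Fin k} (h : i < j) :
    al A B k i + 1 ≤ al A B k j := by
  have h1 := al_mul hA hB h
  have h2 := al_ge hA hB i
  nlinarith

theorem al_le {A B : ℝ} (hA : 1 ≤ A) (hB : 2 ≤ B) {k : ℕ} (i : Fin k) :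
    al A B k i + 1 ≤ A * B ^ k + 1 := by
  unfold al
  have h1 : B ^ (i : ℕ) ≤ B ^ k := pow_le_pow_right₀ (by linarith) i.2.le
  have := mul_le_mul_of_nonneg_left h1 (by linarith : 0 ≤ A)
  linarith

open Classical in
theorem runInc_of (hSpa : Spa) (hExt : Ext) (hTra : Tra) : RunInc := by
  intro K₀ r
  obtain ⟨K, hKd⟩ : ∃ K : ℝ, K = max K₀ 1 := ⟨_, rfl⟩
  have hK1 : 1 ≤ K := by rw [hKd]; exact le_max_right _ _
  have hKK : K₀ ≤ K := by rw [hKd]; exact le_max_left _ _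
  obtain ⟨A, hA⟩ : ∃ A : ℝ, A = 2 * K + 2 := ⟨_, rfl⟩
  obtain ⟨B, hB⟩ : ∃ B : ℝ, B = 2 * K + 4 := ⟨_, rfl⟩
  have hA1 : 1 ≤ A := by linarith
  have hB2 : 2 ≤ B := by linarith
  obtain ⟨k, hk⟩ : ∃ k : ℕ, k = 10 ^ 7 * (r + 2 + 1) ^ 2 := ⟨_, rfl⟩
  obtain ⟨Λ, hΛd⟩ : ∃ Λ : ℝ, Λ = A * B ^ k + 1 := ⟨_, rfl⟩
  have hΛ : 0 < Λ := by rw [hΛd]; positivity
  obtain ⟨c, hc, X₀, hX₀⟩ := hSpa k (r + 2) (al A B k) 1 Λ (le_of_eq hk.symm) one_pos hΛ
    (fun i => ⟨by linarith [al_ge hA1 hB2 i], by rw [hΛd]; exact al_le hA1 hB2 i⟩)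
    (fun i j hij => by
      rcases lt_or_gt_of_ne hij with h | h
      · exact Or.inl (al_lt hA1 hB2 h)
      · exact Or.inr (al_lt hA1 hB2 h))
  obtain ⟨c', hc', hT⟩ := hTra c Λ hc hΛ
  obtain ⟨X₁, hX₁⟩ := exists_log Λ hΛ
  obtain ⟨N₀, hN₀⟩ := hT (X₀ + X₁ + 3)
  refine ⟨c', hc', N₀, fun N hN => ?_⟩
  obtain ⟨X, hX, hR⟩ := hN₀ N hN
  have hX3 : 3 ≤ X := by omega
  have hXr : (3 : ℝ) ≤ X := by exact_mod_cast hX3
  have hL : 0 < Real.log X := Real.log_pos (by linarith)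
  have h := hR (fun q => ∀ j, P j = q → (K₀ * Real.log (P j) ≤ (P (j + 1) : ℝ) - P j ∧
    ∀ i < r, K₀ * ((P (j + i + 1) : ℝ) - P (j + i)) ≤ (P (j + i + 2) : ℝ) - P (j + i + 1))) ?_
  · refine h.trans ?_
    exact_mod_cast card_le_card (fun j hj => by
      rw [mem_filter] at hj ⊢
      exact ⟨hj.1, hj.2 j rfl⟩)
  refine (hX₀ X (by omega)).trans ?_
  refine Nat.cast_le.2 (card_le_card ?_)
  intro n hn
  rw [mem_filter] at hn ⊢
  refine ⟨hn.1, ?_⟩
  have hnX := mem_Ico.1 hn.1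
  obtain ⟨j, a, cc, h1, h2, -⟩ := hExt k (r + 1) (al A B k) 1 Λ X n one_pos hΛ (by omega) hnX.1
    (fun i j hij => al_lt hA1 hB2 hij) hn.2
  have h10 := h1 0 (Nat.zero_le _)
  rw [Nat.add_zero] at h10
  refine ⟨a 0, ?_, ?_, ?_⟩
  · rw [mem_Icc]
    exact ⟨h10.2.1, Nat.le_floor h10.2.2.1⟩
  · rw [← h10.1]
    exact P_prime j
  intro j' hj'
  have hjj : j' = j := P_inj (hj'.trans h10.1.symm)
  subst hjj
  have hP : ∀ i ≤ r + 1, (P (j' + i) : ℝ) = n + a i := by
    intro i hi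
    rw [(h1 i hi).1]
    push_cast
    ring
  have hP0 : (P j' : ℝ) = n + a 0 := by
    have := hP 0 (Nat.zero_le _)
    rwa [Nat.add_zero] at this
  -- the normalised differences
  have hlow : ∀ i ≤ r, (al A B k (cc (i + 1)) - al A B k (cc i) - 1) * Real.log X ≤
      (a (i + 1) : ℝ) - a i := by
    intro i hi
    have e1 := (h1 (i + 1) (by omega)).2.2.2.1
    have e2 := (h1 i (by omega)).2.2.2.2
    nlinarith
  have hupp : ∀ i ≤ r, (a (i + 1) : ℝ) - a i ≤
      (al A B k (cc (i + 1)) + 1 - al A B k (cc i)) * Real.log X := by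
    intro i hi
    have e1 := (h1 (i + 1) (by omega)).2.2.2.2
    have e2 := (h1 i (by omega)).2.2.2.1
    nlinarith
  have hpos : ∀ i ≤ r, 0 ≤ (a (i + 1) : ℝ) - a i := by
    intro i hi
    refine le_trans ?_ (hlow i hi)
    have := al_lt hA1 hB2 (h2 i (by omega))
    exact mul_nonneg (by linarith) hL.le
  constructor
  · have e1 := hlow 0 (Nat.zero_le _)
    have e2 := al_mul hA1 hB2 (h2 0 (by omega))
    have e3 := al_ge hA1 hB2 (cc 0)
    have e4 : 2 * K ≤ al A B k (cc (0 + 1)) - al A B k (cc 0) - 1 := by nlinarith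
    have e5 : 2 * K * Real.log X ≤ (a (0 + 1) : ℝ) - a 0 :=
      (mul_le_mul_of_nonneg_right e4 hL.le).trans e1
    have e6 : (P j' : ℝ) ≤ 3 * X := by
      rw [hP0]
      have f1 : (n : ℝ) ≤ 2 * X := by
        have := hnX.2.le
        exact_mod_cast this
      have f2 := h10.2.2.1.trans (hX₁ X (by omega))
      linarith
    have e7 : (1 : ℝ) ≤ P j' := by exact_mod_cast (P_prime j').one_lt.le
    have e8 : Real.log (P j') ≤ 2 * Real.log X := by
      calc Real.log (P j') ≤ Real.log (X * X) := by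
            refine Real.log_le_log (by linarith) (e6.trans ?_)
            nlinarith
        _ = 2 * Real.log X := by
            rw [Real.log_mul (by linarith) (by linarith)]
            ring
    have e9 : 0 ≤ Real.log (P j') := Real.log_nonneg e7
    calc K₀ * Real.log (P j') ≤ K * Real.log (P j') := mul_le_mul_of_nonneg_right hKK e9
      _ ≤ K * (2 * Real.log X) := mul_le_mul_of_nonneg_left e8 (by linarith)
      _ = 2 * K * Real.log X := by ring
      _ ≤ (a (0 + 1) : ℝ) - a 0 := e5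
      _ = (P (j' + 1) : ℝ) - P j' := by
          rw [hP0, hP 1 (by omega)]
          ring
  · intro i hi
    have g1 : (P (j' + i + 1) : ℝ) - P (j' + i) = (a (i + 1) : ℝ) - a i := by
      rw [add_assoc j' i 1, hP (i + 1) (by omega), hP i (by omega)]
      ring
    have g2 : (P (j' + i + 2) : ℝ) - P (j' + i + 1) = (a (i + 1 + 1) : ℝ) - a (i + 1) := by
      rw [add_assoc j' i 1, add_assoc j' i 2, hP (i + 2) (by omega), hP (i + 1) (by omega)]
      ring
    rw [g1, g2]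
    have e1 := al_mul hA1 hB2 (h2 (i + 1) (by omega))
    have e2 := al_ge hA1 hB2 (cc i)
    have e3 := al_ge hA1 hB2 (cc (i + 1))
    have e4 : K * (al A B k (cc (i + 1)) + 1 - al A B k (cc i)) ≤
        al A B k (cc (i + 1 + 1)) - al A B k (cc (i + 1)) - 1 := by
      have f1 : K * (al A B k (cc (i + 1)) + 1 - al A B k (cc i)) ≤
          K * (al A B k (cc (i + 1)) + 1) :=
        mul_le_mul_of_nonneg_left (by linarith) (by linarith)
      have f2 : (K + 3) * 1 ≤ (K + 3) * al A B k (cc (i + 1)) :=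
        mul_le_mul_of_nonneg_left (by linarith) (by linarith)
      rw [hB] at e1 f1 f2 ⊢
      nlinarith
    calc K₀ * ((a (i + 1) : ℝ) - a i) ≤ K * ((a (i + 1) : ℝ) - a i) :=
          mul_le_mul_of_nonneg_right hKK (hpos i (by omega))
      _ ≤ K * ((al A B k (cc (i + 1)) + 1 - al A B k (cc i)) * Real.log X) :=
          mul_le_mul_of_nonneg_left (hupp i (by omega)) (by linarith)
      _ = (K * (al A B k (cc (i + 1)) + 1 - al A B k (cc i))) * Real.log X := by ring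
      _ ≤ (al A B k (cc (i + 1 + 1)) - al A B k (cc (i + 1)) - 1) * Real.log X :=
          mul_le_mul_of_nonneg_right e4 hL.le
      _ ≤ (a (i + 1 + 1) : ℝ) - a (i + 1) := hlow (i + 1) (by omega)

end Pool.Agent.H662R2.PPRun
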