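import Pool.Agent.H383.PZ.Defs3
import Pool.Agent.H732R2.VorCos

set_option autoImplicit false

open MeasureTheory Filter Topology Set
open Pool.Agent.H387R2.Vor Pool.Agent.H383.PZ

/-! Task A3 of the project PZ (Piltz divisor problem, MP_bc6037_nt): the secondary term for `k = 3`.
The proof follows `Pool.Agent.H387R2.OmC3` (helper387, the case `k = 2`). -/

namespace Pool.Agent.H662R2.PZA3

/-- dominating function -/
noncomputable def HH (z : ℝ) : ℝ := (Real.log z ^ 2 + 1) * min 1 (1 / z ^ 2)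

lemma HH_nonneg (z : ℝ) : 0 ≤ HH z := by
  unfold HH
  have : 0 ≤ min 1 (1 / z ^ 2) := le_min zero_le_one (by positivity)
  positivity

lemma HH_meas : Measurable HH := by
  unfold HH
  fun_prop

lemma HH_int : IntegrableOn HH (Ioi 0) := by
  have hu : Ioi (0:ℝ) = Ioc 0 1 ∪ Ioi 1 := (Ioc_union_Ioi_eq_Ioi zero_le_one).symm
  rw [hu]
  refine IntegrableOn.union ?_ ?_
  · have h1 : IntegrableOn (fun z : ℝ => 65 * z ^ (-(1/4) : ℝ)) (Ioc 0 1) := by
      have := (intervalIntegral.intervalIntegrable_rpow' (a := 0) (b := 1) (r := -(1/4)) (by norm_num))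
      rw [intervalIntegrable_iff_integrableOn_Ioc_of_le zero_le_one] at this
      exact this.const_mul _
    refine Integrable.mono' h1 HH_meas.aestronglyMeasurable ?_
    refine (ae_restrict_iff' measurableSet_Ioc).2 (Eventually.of_forall fun z hz => ?_)
    have hz0 : 0 < z := hz.1
    have hz1 : z ≤ 1 := hz.2
    rw [Real.norm_of_nonneg (HH_nonneg z)]
    unfold HH
    have e1 : |Real.log z| ≤ 8 * z ^ (-(1/8) : ℝ) := by
      rw [abs_of_nonpos (Real.log_nonpos hz0.le hz1), ← Real.log_inv]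
      have := Real.log_le_rpow_div (x := z⁻¹) (ε := 1/8) (by positivity) (by norm_num)
      rw [Real.inv_rpow hz0.le, ← Real.rpow_neg hz0.le] at this
      linarith
    have e2 : 1 ≤ z ^ (-(1/4) : ℝ) := Real.one_le_rpow_of_pos_of_le_one_of_nonpos hz0 hz1 (by norm_num)
    have e3 : z ^ (-(1/4) : ℝ) = z ^ (-(1/8) : ℝ) * z ^ (-(1/8) : ℝ) := by
      rw [← Real.rpow_add hz0]; norm_num
    have e5 : Real.log z ^ 2 ≤ 64 * z ^ (-(1/4) : ℝ) := by
      rw [← sq_abs, e3]
      have := abs_nonneg (Real.log z)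
      nlinarith
    have e6 : (Real.log z ^ 2 + 1) * min 1 (1 / z ^ 2) ≤ (Real.log z ^ 2 + 1) * 1 :=
      mul_le_mul_of_nonneg_left (min_le_left _ _) (by positivity)
    linarith
  · have h1 : IntegrableOn (fun z : ℝ => 65 * z ^ (-(7/4) : ℝ)) (Ioi 1) :=
      (integrableOn_Ioi_rpow_of_lt (by norm_num) zero_lt_one).const_mul _
    refine Integrable.mono' h1 HH_meas.aestronglyMeasurable ?_
    refine (ae_restrict_iff' measurableSet_Ioi).2 (Eventually.of_forall fun z hz => ?_)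
    have hz1 : 1 < z := hz
    have hz0 : 0 < z := by linarith
    rw [Real.norm_of_nonneg (HH_nonneg z)]
    unfold HH
    have e1 : |Real.log z| ≤ 8 * z ^ ((1/8) : ℝ) := by
      rw [abs_of_nonneg (Real.log_nonneg hz1.le)]
      have := Real.log_le_rpow_div (x := z) (ε := 1/8) hz0.le (by norm_num)
      linarith
    have e2 : 1 ≤ z ^ ((1/4) : ℝ) := Real.one_le_rpow hz1.le (by norm_num)
    have e3 : z ^ ((1/4) : ℝ) = z ^ ((1/8) : ℝ) * z ^ ((1/8) : ℝ) := by
      rw [← Real.rpow_add hz0]; norm_num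
    have e5 : Real.log z ^ 2 + 1 ≤ 65 * z ^ ((1/4) : ℝ) := by
      have : Real.log z ^ 2 ≤ 64 * z ^ ((1/4) : ℝ) := by
        rw [← sq_abs, e3]
        have := abs_nonneg (Real.log z)
        nlinarith
      linarith
    have e6 : (Real.log z ^ 2 + 1) * min 1 (1 / z ^ 2) ≤ (Real.log z ^ 2 + 1) * (1 / z ^ 2) :=
      mul_le_mul_of_nonneg_left (min_le_right _ _) (by positivity)
    refine e6.trans ?_
    have e7 : z ^ (-(7/4) : ℝ) = z ^ ((1/4) : ℝ) * (1 / z ^ 2) := by
      have : (1 / z ^ 2 : ℝ) = z ^ (-(2:ℝ)) := by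
        rw [Real.rpow_neg hz0.le, one_div]
        norm_cast
      rw [this, ← Real.rpow_add hz0]
      norm_num
    rw [e7, ← mul_assoc]
    exact mul_le_mul_of_nonneg_right e5 (by positivity)

lemma norm_ex (y : ℝ) : ‖ex y‖ = 1 := by
  unfold ex
  exact Complex.norm_exp_ofReal_mul_I _

lemma cf_le_one (y : ℝ) : ‖cf y‖ ≤ 1 := by
  unfold cf ex
  rw [norm_div]
  apply div_le_one_of_le₀ _ (norm_nonneg _)
  rw [mul_comm]
  refine (Real.norm_exp_I_mul_ofReal_sub_one_le).trans ?_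
  rw [norm_mul Complex.I, Complex.norm_I, one_mul, Complex.norm_real]

lemma cf_le {y : ℝ} (hy : 0 < y) : ‖cf y‖ ≤ 1 / y := by
  have hpi := Real.pi_gt_three
  unfold cf ex
  rw [norm_div, norm_mul, Complex.norm_I, mul_one, Complex.norm_real, Real.norm_eq_abs, abs_of_pos (by positivity)]
  have h1 : ‖Complex.exp (((2 * Real.pi * y : ℝ) : ℂ) * Complex.I) - 1‖ ≤ 2 := by
    refine (norm_sub_le _ _).trans ?_
    rw [Complex.norm_exp_ofReal_mul_I, norm_one]; norm_num
  rw [div_le_div_iff₀ (by positivity) hy]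
  nlinarith

lemma Cq_le_one (δ : ℝ) (n : ℕ) (z v : ℝ) : |Cq δ n z v| ≤ 1 := by
  unfold Cq
  refine (Complex.abs_re_le_norm _).trans ?_
  rw [norm_mul, norm_ex, norm_pow, one_mul]
  exact pow_le_one₀ (norm_nonneg _) (cf_le_one _)

lemma Cq_le {δ : ℝ} (hδ : 0 < δ) {n : ℕ} (hn : 2 ≤ n) {z : ℝ} (hz : 0 < z) (v : ℝ) :
    |Cq δ n z v| ≤ 1 / (3 * δ) ^ 2 * (1 / z ^ 2) := by
  unfold Cq
  refine (Complex.abs_re_le_norm _).trans ?_
  rw [norm_mul, norm_ex, norm_pow, one_mul]
  calc ‖cf (3 * z * δ)‖ ^ n ≤ ‖cf (3 * z * δ)‖ ^ 2 := pow_le_pow_of_le_one (norm_nonneg _) (cf_le_one _) hn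
    _ ≤ (1 / (3 * z * δ)) ^ 2 := pow_le_pow_left₀ (norm_nonneg _) (cf_le (by positivity)) 2
    _ = _ := by field_simp

lemma Cq_meas (δ : ℝ) (n : ℕ) : Measurable (fun p : ℝ × ℝ => Cq δ n p.1 p.2) := by
  unfold Cq ex cf ex
  fun_prop

/-- the weight -/
noncomputable def gs (b c σ z : ℝ) : ℝ :=
  3 * ((9/2) * (Real.log z) ^ 2 + b * Real.log z + c) * Real.exp (-(σ * z))

lemma gs_meas (b c σ : ℝ) : Measurable (gs b c σ) := by
  unfold gs
  fun_prop

/-- the damped integral -/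
noncomputable def QQ (b c δ : ℝ) (n : ℕ) (σ v : ℝ) : ℝ :=
  ∫ z in Ioi (0:ℝ), gs b c σ z * Cq δ n z v

lemma QQ_zero (b c δ : ℝ) (n : ℕ) (v : ℝ) : QQ b c δ n 0 v = Q3 b c δ n v := by
  unfold QQ Q3 gs
  simp

lemma gs_abs (b c : ℝ) {σ z : ℝ} (hσ : 0 ≤ σ) (hz : 0 < z) :
    |gs b c σ z| ≤ 3 * (9 / 2 + |b| + |c|) * (Real.log z ^ 2 + 1) * Real.exp (-(σ * z)) := by
  unfold gs
  rw [abs_mul, abs_mul, abs_of_pos (by norm_num : (0:ℝ) < 3), abs_of_pos (Real.exp_pos _)]
  have h1 : |(9/2) * (Real.log z) ^ 2 + b * Real.log z + c| ≤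
      (9 / 2 + |b| + |c|) * (Real.log z ^ 2 + 1) := by
    refine (abs_add_le _ _).trans ?_
    have h2 : |(9/2) * (Real.log z) ^ 2 + b * Real.log z| ≤ (9/2) * (Real.log z) ^ 2 + |b| * |Real.log z| := by
      refine (abs_add_le _ _).trans ?_
      rw [abs_mul b, abs_of_nonneg (by positivity : 0 ≤ (9/2) * (Real.log z) ^ 2)]
    have h3 : |Real.log z| ≤ Real.log z ^ 2 + 1 := by
      rw [← sq_abs]
      nlinarith [sq_nonneg (|Real.log z| - 1 / 2), abs_nonneg (Real.log z)]
    have h4 : |b| * |Real.log z| ≤ |b| * (Real.log z ^ 2 + 1) := mul_le_mul_of_nonneg_left h3 (abs_nonneg _)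
    have h5 : |c| ≤ |c| * (Real.log z ^ 2 + 1) := by
      nlinarith [abs_nonneg c, mul_nonneg (abs_nonneg c) (sq_nonneg (Real.log z))]
    nlinarith [sq_nonneg (Real.log z)]
  have h3 := Real.exp_pos (-(σ * z))
  calc 3 * |(9/2) * (Real.log z) ^ 2 + b * Real.log z + c| * Real.exp (-(σ * z)) ≤
      3 * ((9 / 2 + |b| + |c|) * (Real.log z ^ 2 + 1)) * Real.exp (-(σ * z)) := by gcongr
    _ = _ := by ring

lemma gs_int (b c : ℝ) {σ : ℝ} (hσ : 0 < σ) : IntegrableOn (gs b c σ) (Ioi 0) := by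
  refine Integrable.mono' (HH_int.const_mul (3 * (9 / 2 + |b| + |c|) * (1 + 2 / σ ^ 2)))
    (gs_meas b c σ).aestronglyMeasurable ?_
  refine (ae_restrict_iff' measurableSet_Ioi).2 (Eventually.of_forall fun z hz => ?_)
  have hz0 : 0 < z := hz
  rw [Real.norm_eq_abs]
  refine (gs_abs b c hσ.le hz0).trans ?_
  unfold HH
  have h1 : Real.exp (-(σ * z)) ≤ (1 + 2 / σ ^ 2) * min 1 (1 / z ^ 2) := by
    rcases le_total 1 (1 / z ^ 2) with h | h
    · rw [min_eq_left h, mul_one]
      have : Real.exp (-(σ * z)) ≤ 1 := Real.exp_le_one_iff.2 (by nlinarith)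
      have : 0 < 2 / σ ^ 2 := by positivity
      linarith
    · rw [min_eq_right h]
      have h2 : Real.exp (-(σ * z)) ≤ 2 / (σ * z) ^ 2 := by
        have h3 : (σ * z) ^ 2 / 2 ≤ Real.exp (σ * z) := by
          have := Real.quadratic_le_exp_of_nonneg (x := σ * z) (by positivity)
          nlinarith [mul_pos hσ hz0]
        rw [Real.exp_neg, ← one_div, div_le_div_iff₀ (Real.exp_pos _) (by positivity)]
        linarith
      refine h2.trans ?_
      have : 2 / (σ * z) ^ 2 = 2 / σ ^ 2 * (1 / z ^ 2) := by field_simp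
      rw [this]
      have h3 : 0 < 1 / z ^ 2 := by positivity
      nlinarith
  have h2 : 0 ≤ 3 * (9 / 2 + |b| + |c|) * (Real.log z ^ 2 + 1) := by positivity
  calc _ ≤ 3 * (9 / 2 + |b| + |c|) * (Real.log z ^ 2 + 1) * ((1 + 2 / σ ^ 2) * min 1 (1 / z ^ 2)) :=
        mul_le_mul_of_nonneg_left h1 h2
    _ = _ := by ring

/-! ### Mellin transforms -/

/-- `∫ e^{-wt}`, `∫ log t e^{-wt}`, `∫ log² t e^{-wt}`; the last constant is `Γ''(1)` -/
lemma mellins {w : ℂ} (hw : 0 < w.re) :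
    (MellinConvergent (fun t : ℝ => Complex.exp (-(w * t))) 1 ∧
      mellin (fun t : ℝ => Complex.exp (-(w * t))) 1 = 1 / w) ∧
    (MellinConvergent (fun t : ℝ => Real.log t • Complex.exp (-(w * t))) 1 ∧
      mellin (fun t : ℝ => Real.log t • Complex.exp (-(w * t))) 1 =
        1 / w * (Complex.log (1 / w) - Real.eulerMascheroniConstant)) ∧
    (MellinConvergent (fun t : ℝ => Real.log t • (Real.log t • Complex.exp (-(w * t)))) 1 ∧
      mellin (fun t : ℝ => Real.log t • (Real.log t • Complex.exp (-(w * t)))) 1 =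
        1 / w * (Complex.log (1 / w) ^ 2 - 2 * Real.eulerMascheroniConstant * Complex.log (1 / w) +
          deriv (deriv Complex.Gamma) 1)) := by
  have hw0 : w ≠ 0 := by
    intro h; rw [h] at hw; simp at hw
  have hcont : Continuous (fun t : ℝ => Complex.exp (-(w * t))) := by fun_prop
  have hn : ∀ t : ℝ, ‖Complex.exp (-(w * t))‖ = Real.exp (-(w.re * t)) := by
    intro t
    rw [Complex.norm_exp]
    congr 1
    simp
  have h1 : (fun t : ℝ => Complex.exp (-(w * t))) =O[atTop] (fun x : ℝ => x ^ (-(3:ℝ))) := by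
    have h2 : (fun t : ℝ => Real.exp (-w.re * t)) =o[atTop] (fun x : ℝ => x ^ (-(3:ℝ))) :=
      isLittleO_exp_neg_mul_rpow_atTop hw _
    refine Asymptotics.IsBigO.trans ?_ h2.isBigO
    refine Asymptotics.IsBigO.of_bound 1 (Eventually.of_forall fun t => ?_)
    rw [hn, one_mul, Real.norm_of_nonneg (Real.exp_pos _).le]
    apply le_of_eq
    ring_nf
  have h2 : (fun t : ℝ => Complex.exp (-(w * t))) =O[𝓝[>] 0] (fun x : ℝ => x ^ (-(0:ℝ))) := by
    refine Asymptotics.IsBigO.of_bound 1 ?_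
    filter_upwards [self_mem_nhdsWithin] with t ht
    have ht0 : 0 < t := ht
    rw [hn, neg_zero, Real.rpow_zero, norm_one, mul_one]
    exact Real.exp_le_one_iff.2 (by nlinarith)
  have hli : LocallyIntegrableOn (fun t : ℝ => Complex.exp (-(w * t))) (Ioi 0) :=
    hcont.locallyIntegrable.locallyIntegrableOn _
  have hc1 : ContinuousOn (fun t : ℝ => Real.log t) (Ioi 0) := by
    intro t ht
    exact (Real.continuousAt_log (ne_of_gt ht)).continuousWithinAt
  have hc2 : ContinuousOn (fun t : ℝ => Real.log t • Complex.exp (-(w * t))) (Ioi 0) :=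
    hc1.smul hcont.continuousOn
  have hli2 : LocallyIntegrableOn (fun t : ℝ => Real.log t • Complex.exp (-(w * t))) (Ioi 0) :=
    hc2.locallyIntegrableOn measurableSet_Ioi
  have h3 := isBigO_rpow_top_log_smul (a := 3) (b := 2) (by norm_num) h1
  have h4 := isBigO_rpow_zero_log_smul (a := 0) (b := 1/2) (by norm_num) h2
  -- the function s ↦ (1/w)^s Γ(s)
  have hG : ∀ s : ℂ, 0 < s.re → HasDerivAt Complex.Gamma (deriv Complex.Gamma s) s := by
    intro s hs
    apply DifferentiableAt.hasDerivAt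
    apply Complex.differentiableAt_Gamma
    intro m hm
    rw [hm] at hs
    simp at hs
    have : (0:ℝ) ≤ m := Nat.cast_nonneg m
    linarith
  have hF : ∀ s : ℂ, 0 < s.re → HasDerivAt (fun s : ℂ => (1 / w) ^ s * Complex.Gamma s)
      ((1 / w) ^ s * Complex.log (1 / w) * Complex.Gamma s + (1 / w) ^ s * deriv Complex.Gamma s) s := by
    intro s hs
    apply HasDerivAt.mul _ (hG s hs)
    have := (hasDerivAt_id s).const_cpow (c := 1 / w) (Or.inl (one_div_ne_zero hw0))
    simpa using this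
  have hopen : IsOpen {s : ℂ | 0 < s.re} := isOpen_lt continuous_const Complex.continuous_re
  have hopen2 : IsOpen {s : ℂ | 1/2 < s.re ∧ s.re < 2} :=
    (isOpen_lt continuous_const Complex.continuous_re).inter (isOpen_lt Complex.continuous_re continuous_const)
  have hmel : ∀ s : ℂ, 0 < s.re → mellin (fun t : ℝ => Complex.exp (-(w * t))) s = (1 / w) ^ s * Complex.Gamma s :=
    fun s hs => mellin_exp hw hs
  have hd1 : ∀ s : ℂ, 0 < s.re → s.re < 3 →
      mellin (fun t : ℝ => Real.log t • Complex.exp (-(w * t))) s =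
      (1 / w) ^ s * Complex.log (1 / w) * Complex.Gamma s + (1 / w) ^ s * deriv Complex.Gamma s := by
    intro s hs hs3
    obtain ⟨-, h5⟩ := mellin_hasDerivAt_of_isBigO_rpow (a := 3) (b := 0) (s := s) hli h1 hs3 h2 hs
    have h6 : (mellin fun t : ℝ => Complex.exp (-(w * t))) =ᶠ[𝓝 s] (fun s : ℂ => (1 / w) ^ s * Complex.Gamma s) := by
      filter_upwards [hopen.mem_nhds hs] with s' hs'
      exact hmel s' hs'
    exact ((hF s hs).congr_of_eventuallyEq h6).unique h5 |>.symm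
  have hg1 : deriv Complex.Gamma 1 = -(Real.eulerMascheroniConstant : ℂ) := Complex.hasDerivAt_Gamma_one.deriv
  refine ⟨⟨?_, ?_⟩, ⟨?_, ?_⟩, ?_⟩
  · exact mellinConvergent_of_isBigO_rpow (a := 3) (b := 0) hli h1 (by norm_num) h2 (by norm_num)
  · rw [hmel 1 (by norm_num), Complex.cpow_one, Complex.Gamma_one, mul_one]
  · exact mellinConvergent_of_isBigO_rpow (a := 2) (b := 1/2) hli2 h3 (by norm_num) h4 (by norm_num)
  · rw [hd1 1 (by norm_num) (by norm_num), Complex.cpow_one, Complex.Gamma_one, hg1]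
    ring
  · obtain ⟨h5, h6⟩ := mellin_hasDerivAt_of_isBigO_rpow (a := 2) (b := 1/2) (s := 1) hli2 h3
      (by norm_num) h4 (by norm_num)
    refine ⟨h5, ?_⟩
    have h7 : (mellin fun t : ℝ => Real.log t • Complex.exp (-(w * t))) =ᶠ[𝓝 (1:ℂ)]
        (fun s : ℂ => (1 / w) ^ s * Complex.log (1 / w) * Complex.Gamma s + (1 / w) ^ s * deriv Complex.Gamma s) := by
      filter_upwards [hopen2.mem_nhds (by norm_num : (1:ℂ) ∈ {s : ℂ | 1/2 < s.re ∧ s.re < 2})] with s hs
      exact hd1 s (by linarith [hs.1]) (by linarith [hs.2])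
    have hdG : HasDerivAt (deriv Complex.Gamma) (deriv (deriv Complex.Gamma) 1) 1 := by
      apply DifferentiableAt.hasDerivAt
      have hdo : DifferentiableOn ℂ Complex.Gamma {s : ℂ | 0 < s.re} := fun s hs =>
        (hG s hs).differentiableAt.differentiableWithinAt
      exact (hdo.deriv hopen).differentiableAt (hopen.mem_nhds (by norm_num))
    have hp : HasDerivAt (fun s : ℂ => (1 / w) ^ s) ((1 / w) ^ (1:ℂ) * Complex.log (1 / w)) 1 := by
      have := (hasDerivAt_id (1:ℂ)).const_cpow (c := 1 / w) (Or.inl (one_div_ne_zero hw0))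
      simpa using this
    have h8 : HasDerivAt (fun s : ℂ => (1 / w) ^ s * Complex.log (1 / w) * Complex.Gamma s + (1 / w) ^ s * deriv Complex.Gamma s)
        (((1 / w) ^ (1:ℂ) * Complex.log (1 / w) * Complex.log (1 / w)) * Complex.Gamma 1 +
          (1 / w) ^ (1:ℂ) * Complex.log (1 / w) * deriv Complex.Gamma 1 +
          ((1 / w) ^ (1:ℂ) * Complex.log (1 / w) * deriv Complex.Gamma 1 +
            (1 / w) ^ (1:ℂ) * deriv (deriv Complex.Gamma) 1)) 1 := by
      apply HasDerivAt.add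
      · exact (hp.mul_const (Complex.log (1 / w))).mul (hG 1 (by norm_num))
      · exact hp.mul hdG
    have h9 := (h8.congr_of_eventuallyEq h7).unique h6
    rw [← h9, Complex.cpow_one, Complex.Gamma_one, hg1]
    ring

/-- `Γ''(1)` is real -/
lemma kappa_real : (deriv (deriv Complex.Gamma) 1).im = 0 := by
  obtain ⟨-, -, -, h⟩ := mellins (w := 1) (by norm_num)
  rw [one_div_one, Complex.log_one, one_mul] at h
  have h2 : mellin (fun t : ℝ => Real.log t • (Real.log t • Complex.exp (-((1:ℂ) * t)))) 1 =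
      ((∫ t in Ioi (0:ℝ), Real.log t * (Real.log t * Real.exp (-t)) : ℝ) : ℂ) := by
    unfold mellin
    rw [← integral_complex_ofReal]
    refine setIntegral_congr_fun measurableSet_Ioi fun t _ => ?_
    simp
  have h3 := congrArg Complex.im h
  rw [h2, Complex.ofReal_im] at h3
  simp at h3
  exact h3.symm

/-- the complex frequency -/
noncomputable def ww (σ v : ℝ) : ℂ := (σ : ℂ) + ((6 * Real.pi * v : ℝ) : ℂ) * Complex.I

lemma ww_re (σ v : ℝ) : (ww σ v).re = σ := by
  unfold ww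
  simp

/-- closed form -/
noncomputable def Gf (b c σ v : ℝ) : ℝ :=
  (3 * (1 / ww σ v * ((9 / 2) * (Complex.log (1 / ww σ v) ^ 2 -
    2 * Real.eulerMascheroniConstant * Complex.log (1 / ww σ v) + deriv (deriv Complex.Gamma) 1) +
    b * (Complex.log (1 / ww σ v) - Real.eulerMascheroniConstant) + c))).re

lemma Q0 (b c : ℝ) {σ : ℝ} (hσ : 0 < σ) (δ v : ℝ) : QQ b c δ 0 σ v = Gf b c σ v := by
  obtain ⟨⟨a1, a2⟩, ⟨b1, b2⟩, ⟨c1, c2⟩⟩ := mellins (w := ww σ v) (by rw [ww_re]; exact hσ)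
  set w := ww σ v with hw
  unfold MellinConvergent at a1 b1 c1
  unfold mellin at a2 b2 c2
  have hpt : ∀ z ∈ Ioi (0:ℝ), gs b c σ z * Cq δ 0 z v = Complex.reCLM (3 * ((9 / 2) * (((z : ℂ) ^ ((1 : ℂ) - 1) •
      (Real.log z • (Real.log z • Complex.exp (-(w * z)))))) + (b : ℂ) *
      ((z : ℂ) ^ ((1 : ℂ) - 1) • (Real.log z • Complex.exp (-(w * z)))) +
      (c : ℂ) * ((z : ℂ) ^ ((1 : ℂ) - 1) • (Complex.exp (-(w * z)))))) := by
    intro z hz
    have hz0 : 0 < z := hz
    have e1 : (z : ℂ) ^ ((1 : ℂ) - 1) = 1 := by simp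
    have e2 : Complex.exp (-(w * z)) = (Real.exp (-(σ * z)) : ℂ) * ex (-(3 * z * v)) := by
      unfold ex
      rw [Complex.ofReal_exp, ← Complex.exp_add]
      congr 1
      rw [hw]
      unfold ww
      push_cast
      ring
    rw [e1, e2]
    unfold gs Cq
    rw [pow_zero, mul_one]
    have e3 : (3 * ((9 / 2) * (((1 : ℂ) •
      (Real.log z • (Real.log z • ((Real.exp (-(σ * z)) : ℂ) * ex (-(3 * z * v))))))) + (b : ℂ) *
      ((1 : ℂ) • (Real.log z • ((Real.exp (-(σ * z)) : ℂ) * ex (-(3 * z * v))))) +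
      (c : ℂ) * ((1 : ℂ) • ((Real.exp (-(σ * z)) : ℂ) * ex (-(3 * z * v))))) : ℂ) =
        ((3 * ((9/2) * (Real.log z) ^ 2 + b * Real.log z + c) * Real.exp (-(σ * z)) : ℝ) : ℂ) *
          (ex (-(3 * z * v))) := by
      simp only [one_smul, Complex.real_smul]
      push_cast
      ring
    rw [e3, Complex.reCLM_apply, Complex.re_ofReal_mul]
  unfold QQ
  rw [setIntegral_congr_fun measurableSet_Ioi hpt]
  have i1 : IntegrableOn (fun z : ℝ => (9 / 2 : ℂ) * (((z : ℂ) ^ ((1 : ℂ) - 1) •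
      (Real.log z • (Real.log z • Complex.exp (-(w * z))))))) (Ioi 0) := c1.const_mul _
  have i2 : IntegrableOn (fun z : ℝ => (b : ℂ) *
      ((z : ℂ) ^ ((1 : ℂ) - 1) • (Real.log z • Complex.exp (-(w * z))))) (Ioi 0) := b1.const_mul _
  have i3 : IntegrableOn (fun z : ℝ => (c : ℂ) *
      ((z : ℂ) ^ ((1 : ℂ) - 1) • (Complex.exp (-(w * z))))) (Ioi 0) := a1.const_mul _
  have i12 : IntegrableOn (fun z : ℝ => (9 / 2 : ℂ) * (((z : ℂ) ^ ((1 : ℂ) - 1) •
      (Real.log z • (Real.log z • Complex.exp (-(w * z)))))) + (b : ℂ) *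
      ((z : ℂ) ^ ((1 : ℂ) - 1) • (Real.log z • Complex.exp (-(w * z))))) (Ioi 0) := i1.add i2
  have hint : IntegrableOn (fun z : ℝ => 3 * ((9 / 2) * (((z : ℂ) ^ ((1 : ℂ) - 1) •
      (Real.log z • (Real.log z • Complex.exp (-(w * z)))))) + (b : ℂ) *
      ((z : ℂ) ^ ((1 : ℂ) - 1) • (Real.log z • Complex.exp (-(w * z)))) +
      (c : ℂ) * ((z : ℂ) ^ ((1 : ℂ) - 1) • (Complex.exp (-(w * z)))))) (Ioi 0) :=
    ((i1.add i2).add i3).const_mul _
  rw [Complex.reCLM.integral_comp_comm hint, integral_const_mul, integral_add i12 i3,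
    integral_add i1 i2, integral_const_mul, integral_const_mul, integral_const_mul, a2, b2, c2,
    Complex.reCLM_apply]
  unfold Gf
  congr 1
  rw [← hw]
  ring

lemma Gf_zero (b c : ℝ) {v : ℝ} (hv : 0 < v) : Gf b c 0 v =
    (9 / 4 * (Real.eulerMascheroniConstant + Real.log (6 * Real.pi * v)) - b / 4) / v := by
  have hpi := Real.pi_pos
  have h4 : 0 < 6 * Real.pi * v := by positivity
  have h4c : ((6 * Real.pi * v : ℝ) : ℂ) ≠ 0 := by exact_mod_cast h4.ne'
  have hone : 1 / ww 0 v = ((-(1 / (6 * Real.pi * v)) : ℝ) : ℂ) * Complex.I := by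
    unfold ww
    rw [Complex.ofReal_zero, zero_add, div_eq_iff (mul_ne_zero h4c Complex.I_ne_zero)]
    have : ((-(1 / (6 * Real.pi * v)) : ℝ) : ℂ) * ((6 * Real.pi * v : ℝ) : ℂ) = -1 := by
      rw [← Complex.ofReal_mul]
      have : -(1 / (6 * Real.pi * v)) * (6 * Real.pi * v) = -1 := by field_simp
      rw [this]; simp
    calc (1:ℂ) = -1 * (Complex.I * Complex.I) := by rw [Complex.I_mul_I]; ring
      _ = (((-(1 / (6 * Real.pi * v)) : ℝ) : ℂ) * ((6 * Real.pi * v : ℝ) : ℂ)) * (Complex.I * Complex.I) := by rw [this]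
      _ = _ := by ring
  have hlog : Complex.log (1 / ww 0 v) = ((-Real.log (6 * Real.pi * v) : ℝ) : ℂ) + ((-(Real.pi / 2) : ℝ) : ℂ) * Complex.I := by
    have e1 : 1 / ww 0 v = Complex.exp (((-Real.log (6 * Real.pi * v) : ℝ) : ℂ) + ((-(Real.pi / 2) : ℝ) : ℂ) * Complex.I) := by
      rw [Complex.exp_add, ← Complex.ofReal_exp, Real.exp_neg, Real.exp_log h4]
      have e2 : Complex.exp (((-(Real.pi / 2) : ℝ) : ℂ) * Complex.I) = -Complex.I := by
        rw [Complex.exp_mul_I, ← Complex.ofReal_cos, ← Complex.ofReal_sin, Real.cos_neg, Real.sin_neg,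
          Real.cos_pi_div_two, Real.sin_pi_div_two]
        simp
      rw [e2, hone]
      push_cast
      ring
    rw [e1, Complex.log_exp]
    · simp
      linarith
    · simp
      linarith
  set L := Real.log (6 * Real.pi * v) with hL
  set g := Real.eulerMascheroniConstant with hg
  obtain ⟨κ, hκ⟩ : ∃ κ : ℝ, deriv (deriv Complex.Gamma) 1 = (κ : ℂ) :=
    ⟨(deriv (deriv Complex.Gamma) 1).re, Complex.ext (by simp) (by rw [kappa_real]; simp)⟩
  have e3 : (3 * (1 / ww 0 v * ((9 / 2) * (Complex.log (1 / ww 0 v) ^ 2 -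
      2 * (g : ℂ) * Complex.log (1 / ww 0 v) + deriv (deriv Complex.Gamma) 1) +
      b * (Complex.log (1 / ww 0 v) - (g : ℂ)) + c)) : ℂ) =
      ((3 * (1 / (6 * Real.pi * v)) * ((9 / 2) * (Real.pi * (L + g)) - b * (Real.pi / 2)) : ℝ) : ℂ) +
      ((3 * (-(1 / (6 * Real.pi * v))) * ((9 / 2) * (L ^ 2 - Real.pi ^ 2 / 4 + 2 * g * L + κ) +
        b * (-L - g) + c) : ℝ) : ℂ) * Complex.I := by
    rw [hlog, hone, hκ]
    push_cast
    ring_nf
    simp only [Complex.I_sq, show (Complex.I : ℂ) ^ 3 = -Complex.I by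
      rw [pow_succ, Complex.I_sq]; ring]
    ring
  unfold Gf
  rw [← hg, e3]
  have : ∀ x y : ℝ, ((x : ℂ) + (y : ℂ) * Complex.I).re = x := by intro x y; simp
  rw [this]
  field_simp
  ring

lemma Gf_cont (b c : ℝ) {v : ℝ} (hv : 0 < v) : ContinuousAt (fun p : ℝ × ℝ => Gf b c p.1 p.2) (0, v) := by
  have hpi := Real.pi_pos
  have h4 : 0 < 6 * Real.pi * v := by positivity
  have hne : ww 0 v ≠ 0 := by
    unfold ww
    rw [Complex.ofReal_zero, zero_add]
    have : ((6 * Real.pi * v : ℝ) : ℂ) ≠ 0 := by exact_mod_cast h4.ne'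
    exact mul_ne_zero this Complex.I_ne_zero
  have hw : ContinuousAt (fun p : ℝ × ℝ => ww p.1 p.2) (0, v) := by
    unfold ww
    fun_prop
  have hinv : ContinuousAt (fun p : ℝ × ℝ => 1 / ww p.1 p.2) (0, v) := continuousAt_const.div hw hne
  have hsl : 1 / ww 0 v ∈ Complex.slitPlane := by
    right
    unfold ww
    rw [Complex.ofReal_zero, zero_add, one_div, Complex.inv_im]
    have h1 : (((6 * Real.pi * v : ℝ) : ℂ) * Complex.I).im = 6 * Real.pi * v := by simp
    have h2 : 0 < Complex.normSq (((6 * Real.pi * v : ℝ) : ℂ) * Complex.I) := by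
      apply Complex.normSq_pos.2
      have : ((6 * Real.pi * v : ℝ) : ℂ) ≠ 0 := by exact_mod_cast h4.ne'
      exact mul_ne_zero this Complex.I_ne_zero
    rw [h1]
    exact div_ne_zero (neg_ne_zero.2 h4.ne') h2.ne'
  have hl : ContinuousAt (fun p : ℝ × ℝ => Complex.log (1 / ww p.1 p.2)) (0, v) := hinv.clog hsl
  unfold Gf
  apply Complex.continuous_re.continuousAt.comp
  apply continuousAt_const.mul
  apply hinv.mul
  apply ContinuousAt.add _ continuousAt_const
  apply ContinuousAt.add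
  · apply continuousAt_const.mul
    apply ContinuousAt.add _ continuousAt_const
    exact (hl.pow 2).sub (continuousAt_const.mul hl)
  · exact continuousAt_const.mul (hl.sub continuousAt_const)

lemma ex_add (x y : ℝ) : ex (x + y) = ex x * ex y := by
  unfold ex
  rw [← Complex.exp_add]
  congr 1
  push_cast
  ring

lemma ex_int {z δ : ℝ} (hz : 0 < z) (hδ : 0 < δ) : ∫ u in (0:ℝ)..δ, ex (3 * z * u) = (δ : ℂ) * cf (3 * z * δ) := by
  have hpi := Real.pi_pos
  have hc : ((2 * Real.pi * (3 * z) : ℝ) : ℂ) * Complex.I ≠ 0 := by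
    apply mul_ne_zero _ Complex.I_ne_zero
    have : 2 * Real.pi * (3 * z) ≠ 0 := by positivity
    exact_mod_cast this
  have h1 : ∀ u : ℝ, ex (3 * z * u) = Complex.exp ((((2 * Real.pi * (3 * z) : ℝ) : ℂ) * Complex.I) * u) := by
    intro u
    unfold ex
    congr 1
    push_cast
    ring
  simp_rw [h1]
  rw [integral_exp_mul_complex hc]
  unfold cf ex
  have h2 : ((δ : ℝ) : ℂ) ≠ 0 := by exact_mod_cast hδ.ne'
  have h3 : ((z : ℝ) : ℂ) ≠ 0 := by exact_mod_cast hz.ne'
  have h4 : ((Real.pi : ℝ) : ℂ) ≠ 0 := by exact_mod_cast hpi.ne'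
  rw [Complex.ofReal_zero, mul_zero, Complex.exp_zero]
  have h5 : Complex.exp ((((2 * Real.pi * (3 * z) : ℝ) : ℂ) * Complex.I) * δ) =
      Complex.exp (((2 * Real.pi * (3 * z * δ) : ℝ) : ℂ) * Complex.I) := by
    congr 1
    push_cast
    ring
  rw [h5]
  push_cast
  field_simp

lemma Cq_succ {δ z : ℝ} (hδ : 0 < δ) (hz : 0 < z) (n : ℕ) (v : ℝ) :
    Cq δ (n + 1) z v = (1 / δ) * ∫ u in (0:ℝ)..δ, Cq δ n z (v - u) := by
  have h1 : ∀ u : ℝ, Cq δ n z (v - u) = Complex.reCLM ((ex (-(3 * z * v)) * cf (3 * z * δ) ^ n) * ex (3 * z * u)) := by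
    intro u
    unfold Cq
    rw [Complex.reCLM_apply]
    congr 1
    have : -(3 * z * (v - u)) = -(3 * z * v) + 3 * z * u := by ring
    rw [this, ex_add]
    ring
  simp_rw [h1]
  have hc : Continuous (fun u : ℝ => (ex (-(3 * z * v)) * cf (3 * z * δ) ^ n) * ex (3 * z * u)) := by
    unfold ex
    fun_prop
  have h2 := Complex.reCLM.intervalIntegral_comp_comm (hc.intervalIntegrable 0 δ (μ := volume))
  rw [h2, intervalIntegral.integral_const_mul, ex_int hz hδ, Complex.reCLM_apply]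
  have h3 : (ex (-(3 * z * v)) * cf (3 * z * δ) ^ n * ((δ : ℂ) * cf (3 * z * δ))) =
      (δ : ℂ) * (ex (-(3 * z * v)) * cf (3 * z * δ) ^ (n + 1)) := by ring
  rw [h3, Complex.re_ofReal_mul]
  unfold Cq
  field_simp

attribute [local irreducible] Pool.Agent.H383.PZ.Cq gs

lemma Cq_meas2 (δ v : ℝ) (n : ℕ) : Measurable (fun p : ℝ × ℝ => Cq δ n p.1 (v - p.2)) := by
  have h2 : Measurable (fun p : ℝ × ℝ => (p.1, v - p.2)) := measurable_fst.prodMk (measurable_const.sub measurable_snd)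
  have h3 := (Cq_meas δ n).comp h2
  simpa only [Function.comp_def] using h3

lemma Cq_meas3 (δ v : ℝ) (n : ℕ) : Measurable (fun z : ℝ => Cq δ n z v) := by
  have h2 : Measurable (fun z : ℝ => (z, v)) := measurable_id.prodMk measurable_const
  have h3 := (Cq_meas δ n).comp h2
  simpa only [Function.comp_def] using h3

lemma gs_meas2 (b c σ : ℝ) : Measurable (fun p : ℝ × ℝ => gs b c σ p.1) := by
  have h3 := (gs_meas b c σ).comp (measurable_fst : Measurable (fun p : ℝ × ℝ => p.1))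
  simpa only [Function.comp_def] using h3

lemma prod_meas (b c δ σ v : ℝ) (n : ℕ) : Measurable (fun p : ℝ × ℝ => gs b c σ p.1 * Cq δ n p.1 (v - p.2)) := by
  exact (gs_meas2 b c σ).mul (Cq_meas2 δ v n)

lemma prod_int (b c : ℝ) {δ σ : ℝ} (hσ : 0 < σ) (n : ℕ) (v : ℝ) :
    Integrable (fun p : ℝ × ℝ => gs b c σ p.1 * Cq δ n p.1 (v - p.2))
      ((volume.restrict (Ioi 0)).prod (volume.restrict (Ioc 0 δ))) := by
  have h1 : Integrable (fun p : ℝ × ℝ => gs b c σ p.1 * (1:ℝ)) ((volume.restrict (Ioi 0)).prod (volume.restrict (Ioc 0 δ))) :=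
    Integrable.mul_prod (gs_int b c hσ) (integrable_const (1:ℝ))
  refine Integrable.mono h1 (prod_meas b c δ σ v n).aestronglyMeasurable (Eventually.of_forall fun p => ?_)
  rw [norm_mul, norm_mul]
  apply mul_le_mul_of_nonneg_left _ (norm_nonneg _)
  rw [norm_one, Real.norm_eq_abs]
  exact Cq_le_one _ _ _ _

lemma QQ_eq (b c δ : ℝ) (n : ℕ) (σ v : ℝ) : QQ b c δ n σ v = ∫ z in Ioi (0:ℝ), gs b c σ z * Cq δ n z v := rfl

lemma QQ_succ (b c : ℝ) {δ σ : ℝ} (hδ : 0 < δ) (hσ : 0 < σ) (n : ℕ) (v : ℝ) :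
    IntegrableOn (fun u : ℝ => QQ b c δ n σ (v - u)) (Ioc 0 δ) ∧
    QQ b c δ (n + 1) σ v = (1 / δ) * ∫ u in Ioc 0 δ, QQ b c δ n σ (v - u) := by
  have hint := prod_int b c (δ := δ) hσ n v
  constructor
  · have h := hint.integral_prod_right
    have e : (fun u : ℝ => QQ b c δ n σ (v - u)) = fun u => ∫ z in Ioi (0:ℝ), gs b c σ z * Cq δ n z (v - u) := by
      funext u
      exact QQ_eq _ _ _ _ _ _
    rw [e]
    exact h
  · have h1 : ∀ z ∈ Ioi (0:ℝ), gs b c σ z * Cq δ (n + 1) z v = (1 / δ) * ∫ u in Ioc 0 δ, gs b c σ z * Cq δ n z (v - u) := by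
      intro z hz
      rw [Cq_succ hδ hz, intervalIntegral.integral_of_le hδ.le, integral_const_mul]
      ring
    rw [QQ_eq, setIntegral_congr_fun measurableSet_Ioi h1, integral_const_mul]
    congr 1
    have e : ∀ u : ℝ, QQ b c δ n σ (v - u) = ∫ z in Ioi (0:ℝ), gs b c σ z * Cq δ n z (v - u) :=
      fun u => QQ_eq _ _ _ _ _ _
    simp_rw [e]
    exact integral_integral_swap (f := fun z u => gs b c σ z * Cq δ n z (v - u)) hint

lemma QQ_bound (b c : ℝ) {δ σ B : ℝ} (hδ : 0 < δ) (hσ : 0 < σ) (n : ℕ) : ∀ v : ℝ,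
    (∀ v' ∈ Icc (v - n * δ) v, QQ b c δ 0 σ v' ≤ B) → QQ b c δ n σ v ≤ B := by
  induction n with
  | zero =>
    intro v h
    exact h v ⟨by simp, le_rfl⟩
  | succ n ih =>
    intro v h
    obtain ⟨h1, h2⟩ := QQ_succ b c hδ hσ n v
    rw [h2]
    have h3 : ∫ u in Ioc 0 δ, QQ b c δ n σ (v - u) ≤ ∫ _u in Ioc 0 δ, B := by
      apply setIntegral_mono_on h1 (integrable_const B) measurableSet_Ioc
      intro u hu
      apply ih
      intro v' hv'
      apply h
      have hu0 : 0 < u := hu.1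
      have hu1 : u ≤ δ := hu.2
      refine ⟨?_, ?_⟩
      · have := hv'.1
        push_cast
        linarith
      · have := hv'.2
        linarith
    rw [setIntegral_const, smul_eq_mul] at h3
    have h4 : (volume.real (Ioc 0 δ)) = δ := by
      rw [Real.volume_real_Ioc_of_le hδ.le]; ring
    rw [h4] at h3
    calc (1 / δ) * ∫ u in Ioc 0 δ, QQ b c δ n σ (v - u) ≤ (1 / δ) * (δ * B) := mul_le_mul_of_nonneg_left h3 (by positivity)
      _ = B := by field_simp

lemma QQ_tendsto (b c : ℝ) {δ : ℝ} (hδ : 0 < δ) {n : ℕ} (hn : 2 ≤ n) (v : ℝ) :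
    Tendsto (fun σ => QQ b c δ n σ v) (𝓝[>] 0) (𝓝 (QQ b c δ n 0 v)) := by
  simp_rw [QQ_eq]
  apply tendsto_integral_filter_of_dominated_convergence
    (fun z => 3 * (9 / 2 + |b| + |c|) * (1 + 1 / (3 * δ) ^ 2) * HH z)
  · apply Eventually.of_forall
    intro σ
    apply Measurable.aestronglyMeasurable
    exact (gs_meas b c σ).mul (Cq_meas3 δ v n)
  · filter_upwards [self_mem_nhdsWithin] with σ hσ
    have hσ0 : 0 < σ := hσ
    refine (ae_restrict_iff' measurableSet_Ioi).2 (Eventually.of_forall fun z hz => ?_)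
    have hz0 : 0 < z := hz
    rw [norm_mul, Real.norm_eq_abs, Real.norm_eq_abs]
    have h1 := gs_abs b c hσ0.le hz0
    have h2 : |Cq δ n z v| ≤ (1 + 1 / (3 * δ) ^ 2) * min 1 (1 / z ^ 2) := by
      rcases le_total 1 (1 / z ^ 2) with h | h
      · rw [min_eq_left h, mul_one]
        have := Cq_le_one δ n z v
        have : 0 < 1 / (3 * δ) ^ 2 := by positivity
        linarith
      · rw [min_eq_right h]
        refine (Cq_le hδ hn hz0 v).trans ?_
        have h3 : 0 < 1 / z ^ 2 := by positivity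
        nlinarith
    have h4 : 0 ≤ 3 * (9 / 2 + |b| + |c|) * (Real.log z ^ 2 + 1) := by positivity
    have h5 : Real.exp (-(σ * z)) ≤ 1 := Real.exp_le_one_iff.2 (by nlinarith)
    have h6 : |gs b c σ z| ≤ 3 * (9 / 2 + |b| + |c|) * (Real.log z ^ 2 + 1) := by
      refine h1.trans ?_
      calc _ ≤ 3 * (9 / 2 + |b| + |c|) * (Real.log z ^ 2 + 1) * 1 :=
            mul_le_mul_of_nonneg_left h5 (by positivity)
        _ = _ := mul_one _
    unfold HH
    calc |gs b c σ z| * |Cq δ n z v| ≤ (3 * (9 / 2 + |b| + |c|) * (Real.log z ^ 2 + 1)) *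
          ((1 + 1 / (3 * δ) ^ 2) * min 1 (1 / z ^ 2)) := mul_le_mul h6 h2 (abs_nonneg _) (by positivity)
      _ = _ := by ring
  · exact HH_int.const_mul _
  · refine (ae_restrict_iff' measurableSet_Ioi).2 (Eventually.of_forall fun z _ => ?_)
    apply Tendsto.mul_const
    have hc : Continuous (fun σ : ℝ => gs b c σ z) := by
      unfold gs
      fun_prop
    exact (hc.tendsto 0).mono_left nhdsWithin_le_nhds

end Pool.Agent.H662R2.PZA3

namespace Pool.Agent.H662R2.PZA3

/-- TASK A3: sign of the secondary term on the left of a near-period, `k = 3` -/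
theorem Q3_le (b c : ℝ) : ∃ v₀ : ℝ, 0 < v₀ ∧ ∀ (n : ℕ) (δ v : ℝ), 2 ≤ n → 0 < δ → n * δ < v → v ≤ v₀ →
    Q3 b c δ n v ≤ -(v⁻¹ * Real.log (v⁻¹)) := by
  have hpi := Real.pi_pos
  set K : ℝ := 9 / 4 * (Real.eulerMascheroniConstant + Real.log (6 * Real.pi)) - b / 4 with hK
  refine ⟨Real.exp (-|K|), Real.exp_pos _, ?_⟩
  intro n δ v hn hδ hv hv1
  have hv0 : 0 < v := by
    have : 0 ≤ (n:ℝ) * δ := by positivity
    linarith
  have hlv : ∀ v' : ℝ, 0 < v' → v' ≤ v → Real.log v' ≤ -|K| := by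
    intro v' h1 h2
    rw [← Real.log_exp (-|K|)]
    exact Real.log_le_log h1 (h2.trans hv1)
  rw [← QQ_zero]
  apply le_of_forall_pos_le_add
  intro ε hε
  apply le_of_tendsto (QQ_tendsto b c hδ hn v)
  have hKc : IsCompact (Icc (v - n * δ) v) := isCompact_Icc
  have h1 : ∀ᶠ σ : ℝ in 𝓝 0, ∀ v' ∈ Icc (v - n * δ) v, Gf b c σ v' < -(v⁻¹ * Real.log (v⁻¹)) + ε := by
    apply hKc.eventually_forall_of_forall_eventually
    intro v' hv'
    have hv'0 : 0 < v' := by
      have := hv'.1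
      linarith
    have h2 := Gf_cont b c hv'0
    have h3 : Gf b c 0 v' < -(v⁻¹ * Real.log (v⁻¹)) + ε := by
      rw [Gf_zero b c hv'0, Real.log_mul (by positivity) hv'0.ne']
      have h5 := hlv v' hv'0 hv'.2
      have h6 := hlv v hv0 le_rfl
      have hab := le_abs_self K
      have hab0 := abs_nonneg K
      have h7 : Real.log v' ≤ Real.log v := Real.log_le_log hv'0 hv'.2
      have h8 : 9 / 4 * (Real.eulerMascheroniConstant + (Real.log (6 * Real.pi) + Real.log v')) - b / 4 ≤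
          Real.log v' := by
        have : 9 / 4 * (Real.eulerMascheroniConstant + (Real.log (6 * Real.pi) + Real.log v')) - b / 4 =
            K + 9 / 4 * Real.log v' := by rw [hK]; ring
        rw [this]
        linarith
      have h9 : (9 / 4 * (Real.eulerMascheroniConstant + (Real.log (6 * Real.pi) + Real.log v')) - b / 4) / v' ≤
          Real.log v' / v' := div_le_div_of_nonneg_right h8 hv'0.le
      have h10 : Real.log v' / v' ≤ Real.log v / v := by
        rw [div_le_div_iff₀ hv'0 hv0]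
        have := hv'.2
        nlinarith
      have h11 : -(v⁻¹ * Real.log (v⁻¹)) = Real.log v / v := by
        rw [Real.log_inv]; ring
      rw [h11]
      linarith
    exact h2.eventually (gt_mem_nhds h3)
  filter_upwards [h1.filter_mono nhdsWithin_le_nhds, self_mem_nhdsWithin] with σ h2 hσ
  have hσ0 : 0 < σ := hσ
  apply QQ_bound b c hδ hσ0
  intro v' hv'
  rw [Q0 b c hσ0]
  exact (h2 v' hv').le

end Pool.Agent.H662R2.PZA3
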