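import Pool.Agent.H626R2.Loc.GDefs

set_option autoImplicit false

/-! The number of monomials of a determinant (task S4 of helper626). -/

namespace Pool.Agent.H626R2.Loc

open MvPolynomial

section gen

variable {K : Type} [Field K] {n : ℕ}

open scoped Pointwise in
theorem S4.prod_le {ι : Type} (s : Finset ι) (f : ι → MvPolynomial (Fin n) K) (W : ℕ)
    (h : ∀ i, (f i).support.card ≤ W) : (∏ i ∈ s, f i).support.card ≤ W ^ s.card := by
  classical
  induction s using Finset.induction_on with
  | empty =>
    rw [Finset.prod_empty, Finset.card_empty, pow_zero]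
    have h1 : (1 : MvPolynomial (Fin n) K).support ⊆ {0} := by
      have h2 : (1 : MvPolynomial (Fin n) K) = monomial 0 1 := rfl
      rw [h2]
      exact support_monomial_subset
    exact (Finset.card_le_card h1).trans (Finset.card_singleton _).le
  | insert a s ha ih =>
    rw [Finset.prod_insert ha, Finset.card_insert_of_notMem ha, pow_succ, mul_comm (W ^ s.card)]
    exact (Finset.card_le_card (support_mul _ _)).trans
      (Finset.card_add_le.trans (Nat.mul_le_mul (h a) ih))

theorem S4.smul_le (u : ℤˣ) (f : MvPolynomial (Fin n) K) : (u • f).support.card = f.support.card := by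
  rcases Int.units_eq_one_or u with rfl | rfl
  · rw [one_smul]
  · rw [Units.neg_smul, one_smul, support_neg]

/-- S4. -/
theorem card_support_det {q W : ℕ} (R : Matrix (Fin q) (Fin q) (MvPolynomial (Fin n) K))
    (hR : ∀ a b, (R a b).support.card ≤ W) : R.det.support.card ≤ q.factorial * W ^ q := by
  classical
  rw [Matrix.det_apply]
  refine (Finset.card_le_card support_sum).trans (Finset.card_biUnion_le.trans ?_)
  refine (Finset.sum_le_card_nsmul _ _ (W ^ q) fun σ _ => ?_).trans ?_
  · rw [S4.smul_le]
    refine (S4.prod_le _ _ W fun i => hR _ _).trans ?_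
    rw [Finset.card_univ, Fintype.card_fin]
  · rw [Finset.card_univ, Fintype.card_perm, Fintype.card_fin, smul_eq_mul]

end gen

end Pool.Agent.H626R2.Loc
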