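import Mathlib

/-!
Groups generated by the states of a finite invertible automaton: an automaton with one more state
and one more letter whose group is the direct product with the cyclic group of one state.
-/

set_option autoImplicit false

namespace Pool.Agent.H662R2.AG

open Equiv

/-- An invertible automaton with states `S` and letters `X`. -/
structure Atm (S X : Type) where
  nx : S → X → S
  out : S → Equiv.Perm X

namespace Atm

variable {S X : Type} (A : Atm S X)

/-- action of a state on words -/
def act : S → List X → List X
  | _, [] => []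
  | s, x :: w => A.out s x :: act (A.nx s x) w

/-- inverse of the action -/
def iact : S → List X → List X
  | _, [] => []
  | s, x :: w => (A.out s).symm x :: iact (A.nx s ((A.out s).symm x)) w

theorem iact_act (s : S) (w : List X) : A.iact s (A.act s w) = w := by
  induction w generalizing s with
  | nil => rfl
  | cons x w ih => simp [act, iact, ih]

theorem act_iact (s : S) (w : List X) : A.act s (A.iact s w) = w := by
  induction w generalizing s with
  | nil => rfl
  | cons x w ih => simp [act, iact, ih]

/-- the permutation of the words given by a state -/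
def pm (s : S) : Perm (List X) := ⟨A.act s, A.iact s, A.iact_act s, A.act_iact s⟩

theorem pm_apply (s : S) (w : List X) : A.pm s w = A.act s w := rfl

/-- the group generated by the states -/
def grp : Subgroup (Perm (List X)) := Subgroup.closure (Set.range A.pm)

end Atm

section Ext

variable {X : Type}

/-- split a word at the first new letter -/
def spl : List (Option X) → List X × List (Option X)
  | [] => ([], [])
  | none :: t => ([], none :: t)
  | some x :: t => (x :: (spl t).1, (spl t).2)

/-- put together -/
def glu (p : List X) (t : List (Option X)) : List (Option X) := p.map some ++ t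

/-- the second part is empty or begins with the new letter -/
def Good (t : List (Option X)) : Prop := spl t = ([], t)

theorem spl_good (v : List (Option X)) : Good (spl v).2 := by
  induction v with
  | nil => rfl
  | cons x t ih =>
    cases x with
    | none => rfl
    | some x => exact ih

theorem glu_spl (v : List (Option X)) : glu (spl v).1 (spl v).2 = v := by
  induction v with
  | nil => rfl
  | cons x t ih =>
    cases x with
    | none => rfl
    | some x =>
      show some x :: glu (spl t).1 (spl t).2 = _
      rw [ih]

theorem spl_glu (p : List X) (t : List (Option X)) (ht : Good t) : spl (glu p t) = (p, t) := by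
  induction p with
  | nil => exact ht
  | cons x p ih =>
    show (x :: (spl (glu p t)).1, (spl (glu p t)).2) = _
    rw [ih]

/-- action on the part before the first new letter -/
def jj (σ : Perm (List X)) : Perm (List (Option X)) where
  toFun v := glu (σ (spl v).1) (spl v).2
  invFun v := glu (σ.symm (spl v).1) (spl v).2
  left_inv v := by
    simp only
    rw [spl_glu _ _ (spl_good v)]
    simp [glu_spl]
  right_inv v := by
    simp only
    rw [spl_glu _ _ (spl_good v)]
    simp [glu_spl]

theorem jj_apply (σ : Perm (List X)) (v : List (Option X)) :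
    jj σ v = glu (σ (spl v).1) (spl v).2 := rfl

/-- `jj` as a homomorphism -/
def jh : Perm (List X) →* Perm (List (Option X)) where
  toFun := jj
  map_one' := by
    ext1 v
    rw [jj_apply, Perm.one_apply, glu_spl, Perm.one_apply]
  map_mul' σ τ := by
    ext1 v
    rw [Perm.mul_apply, jj_apply, jj_apply, jj_apply, spl_glu _ _ (spl_good v), Perm.mul_apply]

theorem jh_apply (σ : Perm (List X)) (v : List (Option X)) :
    jh σ v = glu (σ (spl v).1) (spl v).2 := rfl

theorem jh_map (σ : Perm (List X)) (p : List X) : jh σ (p.map some) = (σ p).map some := by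
  have h : p.map some = glu p ([] : List (Option X)) := by simp [glu]
  have h2 : (σ p).map some = glu (σ p) ([] : List (Option X)) := by simp [glu]
  rw [jh_apply, h, spl_glu p [] rfl, h2]

theorem jh_inj : Function.Injective (jh (X := X)) := by
  intro σ τ h
  ext1 p
  have h1 := jh_map σ p
  rw [h, jh_map] at h1
  exact (List.map_injective_iff.mpr (Option.some_injective X) h1).symm

theorem jh_none (σ : Perm (List X)) (hσ : σ [] = []) (t : List (Option X)) :
    jh σ (none :: t) = none :: t := by
  rw [jh_apply]
  show glu (σ []) (none :: t) = _
  rw [hσ]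
  rfl

/-- action behind the new letter -/
def kk (f : Perm (List (Option X))) : Perm (List (Option X)) where
  toFun
    | none :: t => none :: f t
    | v => v
  invFun
    | none :: t => none :: f.symm t
    | v => v
  left_inv v := by
    rcases v with _ | ⟨_ | x, t⟩ <;> simp
  right_inv v := by
    rcases v with _ | ⟨_ | x, t⟩ <;> simp

theorem kk_nil (f : Perm (List (Option X))) : kk f [] = [] := rfl
theorem kk_none (f : Perm (List (Option X))) (t : List (Option X)) :
    kk f (none :: t) = none :: f t := rfl
theorem kk_some (f : Perm (List (Option X))) (x : X) (t : List (Option X)) :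
    kk f (some x :: t) = some x :: t := rfl

/-- `kk` as a homomorphism -/
def kh : Perm (List X) →* Perm (List (Option X)) where
  toFun σ := kk (jh σ)
  map_one' := by
    ext1 v
    rcases v with _ | ⟨_ | x, t⟩
    · rfl
    · rw [kk_none, map_one]; rfl
    · rfl
  map_mul' σ τ := by
    ext1 v
    rw [Perm.mul_apply]
    rcases v with _ | ⟨_ | x, t⟩
    · rfl
    · rw [kk_none, kk_none, kk_none, map_mul]; rfl
    · rfl

theorem kh_nil (σ : Perm (List X)) : kh σ [] = [] := rfl
theorem kh_none (σ : Perm (List X)) (t : List (Option X)) :
    kh σ (none :: t) = none :: jh σ t := rfl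
theorem kh_some (σ : Perm (List X)) (x : X) (t : List (Option X)) :
    kh σ (some x :: t) = some x :: t := rfl

theorem kh_map (σ : Perm (List X)) (p : List X) : kh σ (p.map some) = p.map some := by
  cases p with
  | nil => rfl
  | cons x p => rfl

theorem kh_inj : Function.Injective (kh (X := X)) := by
  intro σ τ h
  apply jh_inj
  ext1 t
  have h1 := kh_none σ t
  rw [h, kh_none] at h1
  exact (List.cons.inj h1).2.symm

/-- elements fixing the empty word -/
theorem comm (σ τ : Perm (List X)) (hσ : σ [] = []) : Commute (jh σ) (kh τ) := by
  ext1 v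
  rw [Perm.mul_apply, Perm.mul_apply]
  rcases v with _ | ⟨_ | x, t⟩
  · have h := jh_map σ []
    rw [hσ] at h
    have h' : jh σ ([] : List (Option X)) = [] := h
    rw [kh_nil, h', kh_nil]
  · rw [kh_none, jh_none σ hσ, jh_none σ hσ, kh_none]
  · rw [kh_some]
    have h : ∃ y p, σ (x :: (spl t).1) = y :: p := by
      rcases hh : σ (x :: (spl t).1) with _ | ⟨y, p⟩
      · exfalso
        have := σ.injective (hh.trans hσ.symm)
        simp at this
      · exact ⟨y, p, rfl⟩
    obtain ⟨y, p, hy⟩ := h
    rw [jh_apply]
    show glu (σ (x :: (spl t).1)) (spl t).2 = kh τ (glu (σ (x :: (spl t).1)) (spl t).2)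
    rw [hy]
    rfl

end Ext

namespace Atm

variable {S X : Type} (A : Atm S X)

/-- One more letter `none`, fixed by all states, and one more state `none`, which fixes all
letters and whose only nontrivial section is the state `w` at the letter `none`. -/
def ext (e w : S) : Atm (Option S) (Option X) where
  nx s x := match s, x with
    | some s, some x => some (A.nx s x)
    | some _, none => some e
    | none, some _ => some e
    | none, none => some w
  out s := match s with
    | some s => Equiv.optionCongr (A.out s)
    | none => 1

variable {A}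

/-- the identity state -/
def IsId (A : Atm S X) (e : S) : Prop := A.out e = 1 ∧ ∀ x, A.nx e x = e

theorem IsId.pm {e : S} (h : A.IsId e) : A.pm e = 1 := by
  ext1 v
  induction v with
  | nil => rfl
  | cons x v ih =>
    rw [pm_apply] at ih
    rw [pm_apply, act, h.1, h.2, ih]
    rfl

theorem ext_e {e : S} (h : A.IsId e) (w : S) (v : List (Option X)) :
    (A.ext e w).act (some e) v = v := by
  induction v with
  | nil => rfl
  | cons x v ih =>
    cases x with
    | none =>
      show none :: (A.ext e w).act (some e) v = _
      rw [ih]
    | some x =>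
      show Equiv.optionCongr (A.out e) (some x) :: (A.ext e w).act (some (A.nx e x)) v = _
      rw [h.1, h.2, ih]
      rfl

theorem ext_some {e : S} (h : A.IsId e) (w s : S) : (A.ext e w).pm (some s) = jh (A.pm s) := by
  ext1 v
  rw [pm_apply, jh_apply]
  induction v generalizing s with
  | nil => rfl
  | cons x v ih =>
    cases x with
    | none =>
      show none :: (A.ext e w).act (some e) v = none :: v
      rw [ext_e h]
    | some x =>
      show some (A.out s x) :: (A.ext e w).act (some (A.nx s x)) v = _
      rw [ih]
      rfl

theorem ext_none {e : S} (h : A.IsId e) (w : S) : (A.ext e w).pm none = kh (A.pm w) := by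
  ext1 v
  rw [pm_apply]
  rcases v with _ | ⟨_ | x, t⟩
  · rfl
  · show none :: (A.ext e w).act (some w) t = none :: jh (A.pm w) t
    rw [← ext_some h w w]
    rfl
  · show some x :: (A.ext e w).act (some e) t = some x :: t
    rw [ext_e h]

theorem grp_nil (g : Perm (List X)) (hg : g ∈ A.grp) : g [] = [] := by
  induction hg using Subgroup.closure_induction with
  | mem x hx => obtain ⟨s, rfl⟩ := hx; rfl
  | one => rfl
  | mul x y _ _ hx hy => rw [Perm.mul_apply, hy, hx]
  | inv x _ hx => rw [Perm.inv_eq_iff_eq, hx]

/-- the direct product -/
def prodHom (A : Atm S X) (w : S) :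
    A.grp × Subgroup.zpowers (A.pm w) →* Perm (List (Option X)) :=
  MonoidHom.noncommCoprod (jh.comp A.grp.subtype) (kh.comp (Subgroup.zpowers (A.pm w)).subtype)
    (fun g u => comm g.1 u.1 (grp_nil g.1 g.2))

theorem prodHom_apply (w : S) (g : A.grp) (u : Subgroup.zpowers (A.pm w)) :
    prodHom A w (g, u) = jh g.1 * kh u.1 := rfl

theorem prodHom_inj (w : S) : Function.Injective (prodHom A w) := by
  rw [injective_iff_map_eq_one]
  rintro ⟨g, u⟩ h
  rw [prodHom_apply] at h
  have h1 : g.1 = 1 := by
    ext1 p
    have h2 := congrArg (fun f : Perm (List (Option X)) => f (p.map some)) h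
    simp only [Perm.mul_apply, Perm.one_apply] at h2
    rw [kh_map, jh_map] at h2
    exact List.map_injective_iff.mpr (Option.some_injective X) h2
  rw [h1, map_one, one_mul, ← map_one kh] at h
  have h2 := kh_inj h
  exact Prod.ext (Subtype.ext h1) (Subtype.ext h2)

theorem range_prodHom {e : S} (h : A.IsId e) (w : S) : (prodHom A w).range = (A.ext e w).grp := by
  apply le_antisymm
  · rintro _ ⟨⟨g, u⟩, rfl⟩
    rw [prodHom_apply]
    have h1 : ∀ g ∈ A.grp, jh g ∈ (A.ext e w).grp := by
      intro g hg
      induction hg using Subgroup.closure_induction with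
      | mem x hx =>
        obtain ⟨s, rfl⟩ := hx
        rw [← ext_some h w]
        exact Subgroup.subset_closure ⟨_, rfl⟩
      | one => rw [map_one]; exact one_mem _
      | mul x y _ _ hx hy => rw [map_mul]; exact mul_mem hx hy
      | inv x _ hx => rw [map_inv]; exact inv_mem hx
    apply mul_mem (h1 _ g.2)
    obtain ⟨m, hm⟩ := u.2
    simp only at hm
    rw [← hm, map_zpow, ← ext_none h w]
    have h3 : (A.ext e w).pm none ∈ (A.ext e w).grp := Subgroup.subset_closure ⟨none, rfl⟩
    exact zpow_mem h3 m
  · refine (Subgroup.closure_le _).mpr ?_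
    rintro _ ⟨s, rfl⟩
    cases s with
    | none =>
      refine ⟨((1 : A.grp), (⟨A.pm w, Subgroup.mem_zpowers _⟩ : Subgroup.zpowers (A.pm w))), ?_⟩
      rw [prodHom_apply, ext_none h w]
      simp
    | some s =>
      refine ⟨((⟨A.pm s, Subgroup.subset_closure ⟨s, rfl⟩⟩ : A.grp),
        (1 : Subgroup.zpowers (A.pm w))), ?_⟩
      rw [prodHom_apply, ext_some h w]
      simp

/-- The group of the extended automaton is the direct product of the old group and the cyclic
group generated by `w`. -/
theorem ext_iso {e : S} (h : A.IsId e) (w : S) :
    Nonempty ((A.ext e w).grp ≃* A.grp × Subgroup.zpowers (A.pm w)) := by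
  rw [← range_prodHom h w]
  exact ⟨(MonoidHom.ofInjective (prodHom_inj w)).symm⟩

end Atm

section Inv

/-- A finitely generated group has finitely many homomorphisms to a finite group. -/
theorem finite_hom {G H : Type} [Group G] [Group H] [Finite H] (hG : Group.FG G) :
    Finite (G →* H) := by
  obtain ⟨S, hS⟩ := hG.out
  refine Finite.of_injective (fun (f : G →* H) (s : S) => f s.1) ?_
  intro f g h
  apply MonoidHom.eq_of_eqOn_dense hS
  intro s hs
  exact congrFun h ⟨s, hs⟩

theorem card_prod {G K H : Type} [Group G] [Group K] [CommGroup H] :
    Nat.card (G × K →* H) = Nat.card (G →* H) * Nat.card (K →* H) := by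
  rw [← Nat.card_prod]
  refine Nat.card_congr ⟨fun f => (f.comp (MonoidHom.inl G K), f.comp (MonoidHom.inr G K)),
    fun p => p.1.coprod p.2, fun f => ?_, fun p => ?_⟩
  · exact MonoidHom.coprod_unique f
  · simp

/-- A finitely generated group times a finite cyclic group is never isomorphic to the group times
an infinite cyclic group. -/
theorem not_iso {G C Z : Type} [Group G] [Group C] [Group Z] (hG : Group.FG G) [Finite C]
    (z : Z) (hz : ∀ x, x ∈ Subgroup.zpowers z) (hz' : ¬ IsOfFinOrder z) :
    ¬ Nonempty (G × C ≃* G × Z) := by
  rintro ⟨e⟩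
  obtain ⟨p, hp1, hp⟩ := Nat.exists_infinite_primes (Nat.card C + 1)
  have : Fact p.Prime := ⟨hp⟩
  let H := Multiplicative (ZMod p)
  have h1 : Nat.card (G × C →* H) = Nat.card (G × Z →* H) :=
    Nat.card_congr e.monoidHomCongrLeftEquiv
  rw [card_prod, card_prod] at h1
  have := finite_hom (H := H) hG
  have h2 : 0 < Nat.card (G →* H) := Nat.card_pos
  have h3 := Nat.eq_of_mul_eq_mul_left h2 h1
  have hC : Nat.card (C →* H) = 1 := by
    rw [Nat.card_eq_one_iff_unique]
    refine ⟨⟨fun f g => ?_⟩, ⟨1⟩⟩
    have : ∀ f : C →* H, f = 1 := by
      intro f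
      ext1 c
      have hc : f c ^ Nat.card C = 1 := by rw [← map_pow, pow_card_eq_one', map_one]
      have hp2 : f c ^ p = 1 := by
        have h5 : Nat.card H = p := by simp [H]
        have h6 : f c ^ Nat.card H = 1 := pow_card_eq_one'
        rwa [h5] at h6
      have hd1 := orderOf_dvd_of_pow_eq_one hc
      have hd2 := orderOf_dvd_of_pow_eq_one hp2
      rcases (Nat.dvd_prime hp).mp hd2 with h | h
      · exact orderOf_eq_one_iff.mp h
      · rw [h] at hd1
        have := Nat.le_of_dvd Nat.card_pos hd1
        omega
    rw [this f, this g]
  have hZ : 1 < Nat.card (Z →* H) := by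
    have e2 : Multiplicative ℤ ≃* Z := by
      refine MulEquiv.ofBijective (zpowersHom Z z) ⟨?_, ?_⟩
      · rw [injective_iff_map_eq_one]
        intro a ha
        by_contra hne
        apply hz'
        rw [isOfFinOrder_iff_zpow_eq_one]
        exact ⟨Multiplicative.toAdd a, hne, ha⟩
      · intro x
        obtain ⟨m, hm⟩ := hz x
        exact ⟨Multiplicative.ofAdd m, hm⟩
    rw [Nat.card_congr (e2.symm.monoidHomCongrLeftEquiv), Nat.card_congr (zpowersHom H).symm]
    simp [H, hp.one_lt]
  omega

end Inv

end Pool.Agent.H662R2.AG
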