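import Mathlib
import Pool.Agent.H662R2.AutGrp

/-!
Finite invertible automata as tables of numbers.
-/

set_option autoImplicit false

namespace Pool.Agent.H662R2.AG

open Equiv

/-- A finite automaton as an input: the number of letters, and a table with one row for each
state; the entry of row `s` and column `x` is the pair (next state, output letter). -/
abbrev Code : Type := ℕ × List (List (ℕ × ℕ))

/-- entry of the table -/
def entry (A : Code) (s x : ℕ) : ℕ × ℕ := (A.2.getD s []).getD x (0, 0)

/-- The table is a finite invertible automaton over an alphabet with at least two letters. -/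
def Valid (A : Code) : Prop :=
  2 ≤ A.1 ∧ ∀ row ∈ A.2, row.length = A.1 ∧ (row.map Prod.snd).Nodup ∧
    ∀ e ∈ row, e.1 < A.2.length ∧ e.2 < A.1

/-- the action of a state on words: `s(x w) = λ(s,x) t(w)` with `t = τ(s,x)` -/
def run (A : Code) : ℕ → List ℕ → List ℕ
  | _, [] => []
  | s, x :: w => (entry A s x).2 :: run A (entry A s x).1 w

/-- The self-similar group `G(A)`: the group of permutations of the words over the alphabet
generated by the actions of all states. -/
def GA (A : Code) : Subgroup (Perm (List (Fin A.1))) :=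
  Subgroup.closure {σ | ∃ s < A.2.length, ∀ w : List (Fin A.1),
    (σ w).map Fin.val = run A s (w.map Fin.val)}

/-- every state of a valid table acts as a permutation -/
theorem exists_perm (A : Code) (hA : Valid A) (s : ℕ) (hs : s < A.2.length) :
    ∃ σ : Perm (List (Fin A.1)), ∀ w, (σ w).map Fin.val = run A s (w.map Fin.val) := by
  have hrow : ∀ s : Fin A.2.length, (A.2.getD s []).length = A.1 ∧
      ((A.2.getD s []).map Prod.snd).Nodup ∧
      ∀ e ∈ A.2.getD s [], e.1 < A.2.length ∧ e.2 < A.1 := by
    intro s
    rw [List.getD_eq_getElem _ _ s.2]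
    exact hA.2 _ (List.getElem_mem _)
  have hent : ∀ (s : Fin A.2.length) (x : Fin A.1), (entry A s x).1 < A.2.length ∧
      (entry A s x).2 < A.1 := by
    intro s x
    have h := hrow s
    have hx : (x : ℕ) < (A.2.getD s []).length := by rw [h.1]; exact x.2
    unfold entry
    rw [List.getD_eq_getElem _ _ hx]
    exact h.2.2 _ (List.getElem_mem _)
  have hinj : ∀ s : Fin A.2.length,
      Function.Injective (fun x : Fin A.1 => (⟨(entry A s x).2, (hent s x).2⟩ : Fin A.1)) := by
    intro s x y hxy
    have h := hrow s
    have hx : (x : ℕ) < (A.2.getD s []).length := by rw [h.1]; exact x.2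
    have hy : (y : ℕ) < (A.2.getD s []).length := by rw [h.1]; exact y.2
    simp only [Fin.mk.injEq] at hxy
    unfold entry at hxy
    rw [List.getD_eq_getElem _ _ hx, List.getD_eq_getElem _ _ hy] at hxy
    have h2 := (List.nodup_iff_injective_getElem.mp h.2.1)
      (a₁ := ⟨x, by rw [List.length_map]; exact hx⟩) (a₂ := ⟨y, by rw [List.length_map]; exact hy⟩)
      (by simpa using hxy)
    exact Fin.ext (by simpa using h2)
  let B : Atm (Fin A.2.length) (Fin A.1) :=
    ⟨fun s x => ⟨(entry A s x).1, (hent s x).1⟩,
      fun s => Equiv.ofBijective _ (Finite.injective_iff_bijective.mp (hinj s))⟩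
  refine ⟨B.pm ⟨s, hs⟩, fun w => ?_⟩
  have : ∀ (s : Fin A.2.length) (w : List (Fin A.1)),
      (B.act s w).map Fin.val = run A s (w.map Fin.val) := by
    intro s w
    induction w generalizing s with
    | nil => rfl
    | cons x w ih =>
      show _ :: (B.act _ w).map Fin.val = _ :: run A _ (w.map Fin.val)
      rw [ih]
      rfl
  exact this ⟨s, hs⟩ w

section Iso

variable {S X : Type} (A : Atm S X) (n k : ℕ) (es : S ≃ Fin n) (ex : X ≃ Fin k)
  (f : ℕ → ℕ → ℕ × ℕ)

/-- table of a function -/
def tab : List (List (ℕ × ℕ)) := (List.range n).map fun t => (List.range k).map fun u => f t u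

theorem tab_length : (tab n k f).length = n := by simp [tab]

variable {n k f}

theorem entry_tab (t u : ℕ) (ht : t < n) (hu : u < k) : entry (k, tab n k f) t u = f t u := by
  have h1 : ∀ {α : Type} (g : ℕ → α) (d : α) (m t : ℕ), t < m →
      ((List.range m).map g).getD t d = g t := by
    intro α g d m t ht
    rw [List.getD_eq_getElem _ _ (by simpa using ht)]
    simp
  unfold entry tab
  simp only
  rw [h1 _ _ _ _ ht, h1 _ _ _ _ hu]

variable (hf : ∀ s x, f (es s) (ex x) = ((es (A.nx s x) : ℕ), (ex (A.out s x) : ℕ)))

include hf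

theorem tab_valid (hk : 2 ≤ k) : Valid (k, tab n k f) := by
  refine ⟨hk, ?_⟩
  intro row hrow
  simp only [tab, List.mem_map, List.mem_range] at hrow
  obtain ⟨t, ht, rfl⟩ := hrow
  obtain ⟨s, hs⟩ : ∃ s, (es s : ℕ) = t := ⟨es.symm ⟨t, ht⟩, by simp⟩
  refine ⟨by simp, ?_, ?_⟩
  · rw [List.map_map]
    refine List.Nodup.map_on ?_ List.nodup_range
    intro u hu v hv huv
    rw [List.mem_range] at hu hv
    simp only [Function.comp_apply] at huv
    have h1 := hf s (ex.symm ⟨u, hu⟩)
    have h2 := hf s (ex.symm ⟨v, hv⟩)
    simp only [Equiv.apply_symm_apply, hs] at h1 h2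
    rw [h1, h2] at huv
    simp only at huv
    have h3 := (A.out s).injective (ex.injective (Fin.ext huv))
    have h4 := ex.symm.injective h3
    exact congrArg Fin.val h4
  · intro e he
    simp only [List.mem_map, List.mem_range] at he
    obtain ⟨u, hu, rfl⟩ := he
    have h1 := hf s (ex.symm ⟨u, hu⟩)
    simp only [Equiv.apply_symm_apply, hs] at h1
    rw [h1, tab_length]
    exact ⟨(es _).2, (ex _).2⟩

theorem run_tab (s : S) (w : List X) :
    run (k, tab n k f) (es s) (w.map (fun x => (ex x : ℕ))) =
      (A.act s w).map (fun x => (ex x : ℕ)) := by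
  induction w generalizing s with
  | nil => rfl
  | cons x w ih =>
    show (entry _ (es s) (ex x)).2 :: run _ (entry _ (es s) (ex x)).1 _ = _
    rw [entry_tab _ _ (es s).2 (ex x).2, hf]
    simp only
    rw [ih]
    rfl

/-- The group of the table is the group of the automaton. -/
theorem tab_iso : Nonempty (GA (k, tab n k f) ≃* A.grp) := by
  let φ : Perm (List X) ≃* Perm (List (Fin k)) := (Equiv.listEquivOfEquiv ex).permCongrHom
  have hφ : ∀ (σ : Perm (List X)) (w : List (Fin k)),
      φ σ w = (σ (w.map ex.symm)).map ex := fun σ w => rfl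
  have h : GA (k, tab n k f) = A.grp.map φ.toMonoidHom := by
    unfold GA Atm.grp
    rw [MonoidHom.map_closure]
    congr 1
    ext σ
    simp only [Set.mem_ofPred_eq, Set.mem_image, Set.mem_range, exists_exists_eq_and]
    have key : ∀ (s : S) (w : List (Fin k)), (φ (A.pm s) w).map Fin.val =
        run (k, tab n k f) (es s) (w.map Fin.val) := by
      intro s w
      have h1 := run_tab A es ex hf s (w.map ex.symm)
      rw [List.map_map] at h1
      have h2 : (fun x => (ex x : ℕ)) ∘ ex.symm = Fin.val := by
        funext x; simp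
      rw [h2] at h1
      rw [h1, hφ, List.map_map]
      rfl
    constructor
    · rintro ⟨t, ht, h⟩
      rw [tab_length] at ht
      refine ⟨es.symm ⟨t, ht⟩, ?_⟩
      show φ (A.pm _) = σ
      ext1 w
      apply List.map_injective_iff.mpr Fin.val_injective
      rw [key, Equiv.apply_symm_apply, h]
    · rintro ⟨s, rfl⟩
      refine ⟨es s, by rw [tab_length]; exact (es s).2, fun w => key s w⟩
  rw [h]
  exact ⟨(A.grp.equivMapOfInjective φ.toMonoidHom φ.injective).symm⟩

end Iso

end Pool.Agent.H662R2.AG
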