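import Mathlib
import Pool.Agent.Helper599.Core
import Pool.Agent.Helper599.Source2
import Pool.Agent.H662R2.AutGrp

/-!
A finite invertible automaton for a counter machine; loading the input.
-/

set_option autoImplicit false

namespace Pool.Agent.H662R2.AG

open Equiv Pool.Agent.Helper599.Core

section

variable {Q J : Type}

/-- value of a small vector -/
def vl (v : J → Fin 3) : J → ℤ := fun j => ((v j : ℕ) : ℤ) - 1

/-- the small vector with given value -/
def sg (z : J → ℤ) : J → Fin 3 := fun j => if z j < 0 then 0 else if z j = 0 then 1 else 2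

theorem vl_sg (z : J → ℤ) (h : ∀ j, -1 ≤ z j ∧ z j ≤ 1) : vl (sg z) = z := by
  funext j
  have := h j
  unfold vl sg
  split_ifs with h1 h2
  · simp; omega
  · simp; omega
  · simp; omega

theorem vl_one : vl (fun _ : J => 1) = 0 := by
  funext j; simp [vl]

variable (M : Sys Q J)

open Classical in
/-- letter part of `U` -/
noncomputable def fu (β : Option Q) (x : M.X) : M.X :=
  if β = some x.1 ∧ x.2.2.2 = x.2.1 then (x.1, x.2.1, x.2.2.1.rev, x.2.2.2) else x

open Classical in
/-- section of `U` -/
noncomputable def nu (β : Option Q) (x : M.X) : Option Q :=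
  if β = some x.1 ∧ x.2.2.2 = x.2.1 ∧ (x.2.2.1 : ℕ) = M.l then M.nxt x.1 x.2.1 else none

theorem U_cons (β : Option Q) (x : M.X) (w : List M.X) :
    M.U β (x :: w) = fu M β x :: M.U (nu M β x) w := by
  obtain ⟨q, r, c, i⟩ := x
  cases β with
  | none =>
    simp only [fu, nu, Sys.U, reduceCtorEq, false_and, if_false]
    rw [M.U_none]
  | some q' =>
    simp only [fu, nu, Sys.U]
    by_cases h1 : q = q' ∧ i = r
    · have h2 : some q' = some q ∧ i = r := ⟨congrArg some h1.1.symm, h1.2⟩
      rw [if_pos h1, if_pos h2]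
      by_cases h3 : (c : ℕ) = M.l
      · rw [if_pos h3, if_pos ⟨h2.1, h2.2, h3⟩]
      · rw [if_neg h3, if_neg (fun h => h3 h.2.2), M.U_none]
    · have h2 : ¬ (some q' = some q ∧ i = r) := fun h => h1 ⟨(Option.some.inj h.1).symm, h.2⟩
      rw [if_neg h1, if_neg h2, if_neg (fun h => h2 ⟨h.1, h.2.1⟩), M.U_none]

open Classical in
/-- letter part of `V` and `T` -/
noncomputable def fl (α : Option (J → Fin 3)) (x : M.X) : M.X :=
  match α with
  | none => if ∀ j, (x.2.2.2 j : ℕ) = 0 then (x.1, x.2.1, M.neg x.2.2.1, x.2.2.2) else x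
  | some v => (x.1, x.2.1, x.2.2.1, fun j => M.red ((x.2.2.2 j : ℕ) + vl v j))

open Classical in
/-- sections of `V` and `T` -/
noncomputable def nl (α : Option (J → Fin 3)) (x : M.X) : Option (J → Fin 3) :=
  match α with
  | none => if ∀ j, (x.2.2.2 j : ℕ) = 0 then
      (if (x.2.2.1 : ℕ) = 0 then none else some (sg (M.sig x.1 x.2.1 x.2.2.1)))
      else some (fun _ => 1)
  | some v => some (sg (fun j => M.rho x.1 x.2.1 x.2.2.1 j *
      (((x.2.2.2 j : ℕ) + vl v j) / M.B)))

/-- `V` or `T` -/
noncomputable def LP (α : Option (J → Fin 3)) : Perm (List M.X) :=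
  match α with
  | none => M.VP
  | some v => M.TP (vl v)

theorem sig_bd (q : Q) (r : J → Fin M.B) (c : Fin (2 * M.l + 1)) (j : J) :
    -1 ≤ M.sig q r c j ∧ M.sig q r c j ≤ 1 := by
  unfold Sys.sig Sys.s
  split_ifs <;> omega

theorem L_cons (α : Option (J → Fin 3)) (x : M.X) (w : List M.X) :
    LP M α (x :: w) = fl M α x :: LP M (nl M α x) w := by
  obtain ⟨q, r, c, i⟩ := x
  cases α with
  | none =>
    show M.V ((q, r, c, i) :: w) = _
    simp only [fl, nl, Sys.V]
    by_cases h1 : ∀ j, (i j : ℕ) = 0
    · simp only [if_pos h1]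
      by_cases h2 : (c : ℕ) = 0
      · simp only [if_pos h2]; rfl
      · simp only [if_neg h2]
        congr 1
        show _ = M.T (vl (sg (M.sig q r c))) w
        rw [vl_sg _ (sig_bd M q r c)]
    · simp only [if_neg h1]
      congr 1
      show _ = M.T (vl (fun _ => 1)) w
      rw [vl_one, M.T_zero]
  | some v =>
    show M.T (vl v) ((q, r, c, i) :: w) = _
    rw [M.T_cons]
    simp only [fl, nl]
    congr 1
    show _ = M.T (vl (sg _)) w
    rw [vl_sg]
    intro j
    have hB := M.hB
    have hi := (i j).2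
    have hv := (v j).2
    have h1 : -1 ≤ (((i j : ℕ) : ℤ) + vl v j) / M.B := by
      rw [Int.le_ediv_iff_mul_le (by omega)]
      simp only [vl]; omega
    have h2 : (((i j : ℕ) : ℤ) + vl v j) / M.B ≤ 1 := by
      have : (((i j : ℕ) : ℤ) + vl v j) / M.B < 2 := by
        rw [Int.ediv_lt_iff_lt_mul (by omega)]
        simp only [vl]; omega
      omega
    unfold Sys.rho
    split_ifs <;> constructor <;> omega

/-- states -/
abbrev SS (Q J : Type) : Type := Option (J → Fin 3) × Option Q

/-- permutation of a state -/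
noncomputable def PP (s : SS Q J) : Perm (List M.X) := LP M s.1 * M.UP s.2

theorem PP_cons (s : SS Q J) (x : M.X) (w : List M.X) :
    PP M s (x :: w) = fl M s.1 (fu M s.2 x) :: PP M (nl M s.1 (fu M s.2 x), nu M s.2 x) w := by
  rw [PP, Perm.mul_apply, M.UP_apply, U_cons, L_cons]
  rfl

theorem PP_nil (s : SS Q J) : PP M s [] = [] := by
  obtain ⟨α, β⟩ := s
  rw [PP, Perm.mul_apply, M.UP_apply, M.U_nil]
  cases α <;> rfl

theorem out_inj (s : SS Q J) : Function.Injective (fun x => fl M s.1 (fu M s.2 x)) := by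
  intro x y h
  have h1 : PP M s [x] = PP M s [y] := by
    rw [PP_cons, PP_cons, PP_nil, PP_nil]
    simp only at h
    rw [h]
  have := (PP M s).injective h1
  simpa using this

variable [Finite Q] [Finite J]

instance : Finite M.X := inferInstanceAs (Finite (Q × (J → Fin M.B) × Fin (2 * M.l + 1) × (J → Fin M.B)))

/-- the automaton -/
noncomputable def MA : Atm (SS Q J) M.X where
  nx s x := (nl M s.1 (fu M s.2 x), nu M s.2 x)
  out s := Equiv.ofBijective (fun x => fl M s.1 (fu M s.2 x))
    (Finite.injective_iff_bijective.mp (out_inj M s))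

theorem MA_pm (s : SS Q J) : (MA M).pm s = PP M s := by
  ext1 w
  rw [Atm.pm_apply]
  induction w generalizing s with
  | nil => rw [PP_nil]; rfl
  | cons x w ih => rw [PP_cons, ← ih]; rfl

/-- the identity state -/
def e0 : SS Q J := (some (fun _ => 1), none)

theorem isId : (MA M).IsId e0 := by
  have hB := M.hB
  have key : ∀ (i : Fin M.B), M.red ((i : ℕ) + 0) = i := by
    intro i
    apply M.red_eq
    rw [add_zero]
    exact Int.emod_eq_of_lt (by omega) (by have := i.2; omega)
  constructor
  · ext1 x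
    show fl M (some (fun _ => 1)) (fu M none x) = x
    obtain ⟨q, r, c, i⟩ := x
    simp only [fu, reduceCtorEq, false_and, if_false, fl, vl_one, Pi.zero_apply]
    congr 3
    funext j
    exact key (i j)
  · intro x
    show (nl M (some (fun _ => 1)) (fu M none x), nu M none x) = (some (fun _ => 1), none)
    obtain ⟨q, r, c, i⟩ := x
    simp only [fu, nu, reduceCtorEq, false_and, if_false, nl, vl_one, Pi.zero_apply]
    congr 2
    funext j
    have : (((i j : ℕ) : ℤ) + 0) / M.B = 0 := by
      rw [add_zero]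
      exact Int.ediv_eq_zero_of_lt (by omega) (by have := (i j).2; omega)
    simp only [sg, this, mul_zero]
    simp

/-- The element simulating the machine, started with zero counters. -/
theorem MA_W (q : Q) : (MA M).pm (none, some q) = M.W (some q) 0 := by
  rw [MA_pm]
  unfold PP Sys.W Sys.A
  rw [M.TP_zero, inv_one, one_mul, mul_one]
  rfl

theorem fin_W (q : Q) (hl : 0 < M.l) :
    IsOfFinOrder ((MA M).pm (none, some q)) ↔ M.Halts (some q) (fun _ => 0) := by
  rw [MA_W, isOfFinOrder_iff_pow_eq_one]
  have hz : (Sys.zz (fun _ : J => 0)) = 0 := by funext j; simp [Sys.zz]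
  constructor
  · rintro ⟨m, hm, h⟩
    exact M.halts_of_finite hl m (some q) (fun _ => 0) hm (by rw [hz]; exact h)
  · intro h
    obtain ⟨m, hm, h2⟩ := M.finite_of_halts h
    exact ⟨m, hm, by rw [hz] at h2; exact h2⟩

/-- an odometer -/
def v1 [DecidableEq J] (j0 : J) : SS Q J := (some (fun j => if j = j0 then 2 else 1), none)

omit [Finite Q] [Finite J] in
theorem T_inf (j0 : J) (q : Q) (r : J → Fin M.B) (h : 0 < M.a q r j0) (hB2 : 2 ≤ M.B) (m : ℕ) :
    ∀ n : J → ℤ, n j0 ≠ 0 → (n j0).natAbs ≤ m → M.TP n ≠ 1 := by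
  induction m with
  | zero => intro n hn hm; omega
  | succ m ih =>
    intro n hn hm h1
    have h2 : ∀ w, M.T n ((q, r, ⟨0, by omega⟩, M.z0) :: w) = (q, r, ⟨0, by omega⟩, M.z0) :: w := by
      intro w
      rw [← M.TP_apply, h1, Perm.one_apply]
    have h3 := fun w => (List.cons.inj ((M.T_cons n q r ⟨0, by omega⟩ M.z0 w).symm.trans (h2 w)))
    have h4 := congrFun (congrArg (fun x : M.X => x.2.2.2) (h3 []).1) j0
    have h5 : (n j0) % M.B = 0 := by
      have h6 := congrArg (fun i : Fin M.B => ((i : ℕ) : ℤ)) h4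
      simp only [M.red_val] at h6
      simpa [Sys.z0] using h6
    set n' : J → ℤ := fun j => M.rho q r ⟨0, by omega⟩ j * ((((M.z0 j : Fin M.B) : ℕ) + n j) / M.B)
    have h7 : n' j0 = n j0 / M.B := by
      simp only [n', Sys.rho, Sys.z0]
      rw [if_pos h]
      simp
    have h8 : (M.B : ℤ) * n' j0 = n j0 := by
      rw [h7]
      exact Int.mul_ediv_cancel' (Int.dvd_of_emod_eq_zero h5)
    refine ih n' ?_ ?_ ?_
    · intro h9; rw [h9, mul_zero] at h8; exact hn h8.symm
    · have h10 : (n j0).natAbs = M.B * (n' j0).natAbs := by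
        rw [← h8, Int.natAbs_mul, Int.natAbs_natCast]
      have h11 : (n' j0).natAbs ≠ 0 := by
        intro h12
        rw [h12, mul_zero] at h10
        omega
      nlinarith
    · ext1 w
      exact (h3 w).2

theorem inf_v1 [DecidableEq J] (j0 : J) (q : Q) (r : J → Fin M.B) (h : 0 < M.a q r j0)
    (hB2 : 2 ≤ M.B) : ¬ IsOfFinOrder ((MA M).pm (v1 (Q := Q) j0)) := by
  rw [MA_pm, isOfFinOrder_iff_pow_eq_one]
  rintro ⟨m, hm, h1⟩
  have h2 : PP M (v1 (Q := Q) j0) = M.TP (vl (fun j => if j = j0 then 2 else 1)) := by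
    unfold PP v1
    simp only [M.UP_none, mul_one]
    rfl
  have h3 : ∀ m : ℕ, (M.TP (vl (fun j => if j = j0 then 2 else 1))) ^ m =
      M.TP (fun j => m * vl (fun j => if j = j0 then 2 else 1) j) := by
    intro m
    induction m with
    | zero =>
      rw [pow_zero]
      have : (fun j => ((0 : ℕ) : ℤ) * vl (fun j => if j = j0 then 2 else 1) j) = (0 : J → ℤ) := by
        funext j; simp
      rw [this, M.TP_zero]
    | succ m ih =>
      rw [pow_succ, ih, ← M.TP_add]
      congr 1
      funext j
      simp only [Pi.add_apply]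
      push_cast
      ring
  rw [h2, h3] at h1
  refine T_inf M j0 q r h hB2 _ _ ?_ le_rfl h1
  simp only [vl, if_true]
  norm_num
  omega

end

section Load

variable {K : ℕ} (M : Sys (Fin K) Bool) (q0 : Fin K) (N : ℕ)

/-- kinds of states: old states, loading states (`true`: add one), and the last loading state -/
def cls (s : ℕ) : Fin K ⊕ Bool := if h : s < K then .inl ⟨s, h⟩ else .inr (decide (s < K + N))

/-- multipliers -/
def ca (κ : Fin K ⊕ Bool) (r : Bool → Fin M.B) (j : Bool) : ℕ :=
  match κ with
  | .inl q => M.a q r j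
  | .inr _ => M.B

/-- constants -/
def cb (κ : Fin K ⊕ Bool) (r : Bool → Fin M.B) (j : Bool) : ℕ :=
  match κ with
  | .inl q => M.b q r j
  | .inr b => (r j : ℕ) + (if b && j then 1 else 0)

/-- next state: `none`: the next number -/
def cn (κ : Fin K ⊕ Bool) (r : Bool → Fin M.B) : Option (Option (Fin K)) :=
  match κ with
  | .inl q => some (M.nxt q r)
  | .inr true => none
  | .inr false => some (some q0)

/-- inclusion of old states -/
def em (q : Fin K) : Fin (K + N + 1) := ⟨q, by omega⟩

/-- The machine which first loads the counter and then runs `M` -/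
@[reducible] def LM : Sys (Fin (K + N + 1)) Bool where
  B := M.B
  hB := M.hB
  l := max M.l M.B
  nxt s r := match cn M q0 (cls N s) r with
    | some o => o.map (em N)
    | none => if h : (s : ℕ) + 1 < K + N + 1 then some ⟨s + 1, h⟩ else none
  a s r j := ca M (cls N s) r j
  b s r j := cb M (cls N s) r j
  ha s r j := by
    unfold ca
    split
    · exact le_max_of_le_left (M.ha _ _ _)
    · exact le_max_right _ _
  hb s r j := by
    unfold cb
    split
    · exact le_max_of_le_left (M.hb _ _ _)
    · have := (r j).2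
      split_ifs <;> exact le_max_of_le_right (by omega)

theorem cls_em (q : Fin K) : cls N ((em N q : Fin (K + N + 1)) : ℕ) = .inl q := by
  unfold cls em
  rw [dif_pos q.2]

theorem LM_nxt_em (q : Fin K) (r : Bool → Fin M.B) :
    (LM M q0 N).nxt (em N q) r = (M.nxt q r).map (em N) := by
  show (match cn M q0 (cls N ((em N q : Fin (K + N + 1)) : ℕ)) r with
    | some o => o.map (em N)
    | none => _) = _
  rw [cls_em]
  rfl

theorem LM_nn_em (q : Fin K) (n : Bool → ℕ) :
    (LM M q0 N).nn (em N q) n = M.nn q n := by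
  funext j
  show ca M (cls N ((em N q : Fin (K + N + 1)) : ℕ)) _ j * _ +
    cb M (cls N ((em N q : Fin (K + N + 1)) : ℕ)) _ j = _
  rw [cls_em]
  rfl

theorem halts_em_of (o : Option (Fin K)) (n : Bool → ℕ) (h : M.Halts o n) :
    (LM M q0 N).Halts (o.map (em N)) n := by
  induction h with
  | stop n => exact .stop n
  | step q n _ ih =>
    refine .step _ _ ?_
    have h1 := LM_nxt_em M q0 N q (M.res n)
    have h2 : (LM M q0 N).nxt (em N q) ((LM M q0 N).res n) = (M.nxt q (M.res n)).map (em N) := h1
    rw [h2, LM_nn_em]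
    exact ih

theorem of_halts_em (o' : Option (Fin (K + N + 1))) (n : Bool → ℕ)
    (h : (LM M q0 N).Halts o' n) : ∀ o : Option (Fin K), o' = o.map (em N) → M.Halts o n := by
  induction h with
  | stop n =>
    intro o ho
    cases o with
    | none => exact .stop n
    | some q => simp at ho
  | step q' n _ ih =>
    intro o ho
    cases o with
    | none => simp at ho
    | some q =>
      simp only [Option.map_some, Option.some.injEq] at ho
      subst ho
      refine .step _ _ ?_
      have h1 := LM_nxt_em M q0 N q (M.res n)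
      have h2 : (LM M q0 N).nxt (em N q) ((LM M q0 N).res n) =
        (M.nxt q (M.res n)).map (em N) := h1
      have h3 := ih (M.nxt q (M.res n)) h2
      rwa [LM_nn_em] at h3

theorem halts_em_iff (o : Option (Fin K)) (n : Bool → ℕ) :
    (LM M q0 N).Halts (o.map (em N)) n ↔ M.Halts o n :=
  ⟨fun h => of_halts_em M q0 N _ n h o rfl, halts_em_of M q0 N o n⟩

theorem step_iff {Q J : Type} (M : Sys Q J) (q : Q) (n : J → ℕ) :
    M.Halts (some q) n ↔ M.Halts (M.nxt q (M.res n)) (M.nn q n) := by
  constructor
  · intro h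
    cases h with
    | step _ _ h => exact h
  · exact .step q n

open Pool.Agent.Helper599.Source in
theorem load_iff (t d : ℕ) (h : t + d = N) :
    (LM M q0 N).Halts (some ⟨K + t, by omega⟩) (ini t) ↔ M.Halts (some q0) (ini N) := by
  induction d generalizing t with
  | zero =>
    obtain rfl : t = N := by omega
    rw [step_iff, ← halts_em_iff M q0 t]
    have hc : cls t (K + t) = (.inr false : Fin K ⊕ Bool) := by
      unfold cls
      rw [dif_neg (by omega)]
      simp
    have h1 : (LM M q0 t).nxt ⟨K + t, by omega⟩ ((LM M q0 t).res (ini t)) =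
        (some q0).map (em t) := by
      show (match cn M q0 (cls t (K + t)) _ with
        | some o => o.map (em t)
        | none => _) = _
      rw [hc]
      rfl
    have h2 : (LM M q0 t).nn ⟨K + t, by omega⟩ (ini t) = ini t := by
      funext j
      show ca M (cls t (K + t)) _ j * (ini t j / M.B) + cb M (cls t (K + t)) _ j = _
      rw [hc]
      show M.B * (ini t j / M.B) + (ini t j % M.B + 0) = _
      rw [add_zero, Nat.div_add_mod]
    rw [h1, h2]
  | succ d ih =>
    rw [step_iff]
    have hc : cls N (K + t) = (.inr true : Fin K ⊕ Bool) := by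
      unfold cls
      rw [dif_neg (by omega)]
      simp only [Sum.inr.injEq, decide_eq_true_eq]
      omega
    have h1 : (LM M q0 N).nxt ⟨K + t, by omega⟩ ((LM M q0 N).res (ini t)) =
        some ⟨K + (t + 1), by omega⟩ := by
      show (match cn M q0 (cls N (K + t)) ((LM M q0 N).res (ini t)) with
        | some o => o.map (em N)
        | none => if h : K + t + 1 < K + N + 1 then
          (some ⟨K + t + 1, h⟩ : Option (Fin (K + N + 1))) else none) = _
      rw [hc]
      show (if h : K + t + 1 < K + N + 1 then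
          (some ⟨K + t + 1, h⟩ : Option (Fin (K + N + 1))) else none) = _
      rw [dif_pos (by omega)]
      rfl
    have h2 : (LM M q0 N).nn ⟨K + t, by omega⟩ (ini t) = ini (t + 1) := by
      funext j
      show ca M (cls N (K + t)) _ j * (ini t j / M.B) + cb M (cls N (K + t)) _ j = _
      rw [hc]
      show M.B * (ini t j / M.B) + (ini t j % M.B + (if true && j then 1 else 0)) = _
      rw [← add_assoc, Nat.div_add_mod]
      cases j <;> simp [ini]
    rw [h1, h2]
    exact ih (t + 1) (by omega)

/-- the first loading state -/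
def sK : Fin (K + N + 1) := ⟨K, by omega⟩

open Pool.Agent.Helper599.Source in
theorem fin_iff :
    IsOfFinOrder ((MA (LM M q0 N)).pm (none, some (sK N))) ↔ M.Halts (some q0) (ini N) := by
  rw [fin_W _ _ (lt_of_lt_of_le M.hB (le_max_right _ _)), ← load_iff M q0 N 0 N (by omega)]
  have : ini 0 = fun _ => 0 := by funext j; cases j <;> rfl
  rw [this]
  rfl

theorem inf_LM (hB : 2 ≤ M.B) :
    ¬ IsOfFinOrder ((MA (LM M q0 N)).pm (v1 (Q := Fin (K + N + 1)) true)) := by
  refine inf_v1 (LM M q0 N) true (sK N) (fun _ => ⟨0, M.hB⟩) ?_ hB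
  show 0 < ca M (cls N K) _ true
  have : cls N K = (.inr (decide (K < K + N)) : Fin K ⊕ Bool) := by
    unfold cls
    rw [dif_neg (by omega)]
  rw [this]
  exact M.hB

/-- The comparison of the two groups. -/
theorem main_iff (hB : 2 ≤ M.B) :
    Nonempty (((MA (LM M q0 N)).ext e0 (none, some (sK N))).grp ≃*
      ((MA (LM M q0 N)).ext e0 (v1 true)).grp) ↔
      ¬ M.Halts (some q0) (Pool.Agent.Helper599.Source.ini N) := by
  rw [← fin_iff M q0 N]
  obtain ⟨e1⟩ := Atm.ext_iso (isId (LM M q0 N)) (none, some (sK N))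
  obtain ⟨e2⟩ := Atm.ext_iso (isId (LM M q0 N)) (v1 true)
  have h2 := inf_LM M q0 N hB
  constructor
  · rintro ⟨e⟩ h1
    have hf : Finite (Subgroup.zpowers ((MA (LM M q0 N)).pm (none, some (sK N)))) :=
      (finite_zpowers.mpr h1).to_subtype
    have hfg : Group.FG (MA (LM M q0 N)).grp := by
      rw [Group.fg_iff_subgroup_fg]
      exact ⟨(Set.finite_range (MA (LM M q0 N)).pm).toFinset, by simp [Atm.grp]⟩
    refine not_iso hfg (Z := Subgroup.zpowers ((MA (LM M q0 N)).pm (v1 true)))
      ⟨_, Subgroup.mem_zpowers _⟩ ?_ ?_ ⟨e1.symm.trans (e.trans e2)⟩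
    · rintro ⟨x, m, rfl⟩
      exact ⟨m, Subtype.ext (by simp)⟩
    · intro h3
      apply h2
      exact (Submonoid.isOfFinOrder_coe (H := (Subgroup.zpowers _).toSubmonoid)).mpr h3
  · intro h1
    have key : ∀ g : Perm (List (LM M q0 N).X), ¬ IsOfFinOrder g →
        Nonempty (Multiplicative ℤ ≃* Subgroup.zpowers g) := by
      intro g hg
      refine ⟨MulEquiv.ofBijective
        (zpowersHom (Subgroup.zpowers g) ⟨g, Subgroup.mem_zpowers g⟩) ⟨?_, ?_⟩⟩
      · rw [injective_iff_map_eq_one]
        intro a ha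
        by_contra hne
        apply hg
        rw [isOfFinOrder_iff_zpow_eq_one]
        exact ⟨Multiplicative.toAdd a, hne, congrArg Subtype.val ha⟩
      · rintro ⟨x, m, rfl⟩
        exact ⟨Multiplicative.ofAdd m, Subtype.ext (by simp)⟩
    obtain ⟨f1⟩ := key _ h1
    obtain ⟨f2⟩ := key _ h2
    exact ⟨e1.trans ((MulEquiv.prodCongr (MulEquiv.refl _) (f1.symm.trans f2)).trans e2.symm)⟩

end Load

end Pool.Agent.H662R2.AG
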