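import Mathlib
import Pool.Agent.H662R2.MachAut
import Pool.Agent.H662R2.AutCode

/-!
The tables of the automata, and their computability.
-/

set_option autoImplicit false

namespace Pool.Agent.H662R2.AG

open Equiv Pool.Agent.Helper599.Core

section Num

/-- code of an optional pair -/
def cd (p m : ℕ) : Option (Fin p × ℕ) → ℕ
  | none => p * m
  | some (a, b) => b + m * a

/-- decoding -/
def dc (p m t : ℕ) : Option (Fin p × ℕ) :=
  (Encodable.decode (t / m) : Option (Fin p)).map (fun a => (a, t % m))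

theorem dec_fin (p t : ℕ) :
    (Encodable.decode t : Option (Fin p)) = if h : t < p then some ⟨t, h⟩ else none := by
  by_cases h : t < p
  · rw [dif_pos h]
    simp [Encodable.decode, Encodable.decodeSubtype, h]
  · rw [dif_neg h]
    simp [Encodable.decode, Encodable.decodeSubtype, h]

theorem dc_none (p m : ℕ) (hm : 0 < m) : dc p m (p * m) = none := by
  unfold dc
  rw [Nat.mul_div_cancel _ hm]
  rw [dec_fin, dif_neg (lt_irrefl _)]
  rfl

theorem dc_some (p m : ℕ) (a : Fin p) (b : ℕ) (hb : b < m) : dc p m (b + m * a) = some (a, b) := by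
  unfold dc
  rw [Nat.add_mul_div_left _ _ (by omega), Nat.div_eq_of_lt hb, Nat.add_mul_mod_self_left,
    Nat.mod_eq_of_lt hb, zero_add]
  rw [dec_fin, dif_pos a.2]
  rfl

theorem prim_cd (p : ℕ) : Primrec₂ (fun (m : ℕ) (x : Option (Fin p × ℕ)) => cd p m x) := by
  have h : Primrec₂ (fun (m : ℕ) (x : Option (Fin p × ℕ)) =>
      @Option.casesOn _ (fun _ => ℕ) x (p * m) (fun y => y.2 + m * (Encodable.encode y.1))) := by
    refine Primrec.option_casesOn Primrec.snd ?_ ?_
    · exact Primrec.nat_mul.comp (Primrec.const p) Primrec.fst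
    · refine (Primrec.nat_add.comp (Primrec.snd.comp Primrec.snd) (Primrec.nat_mul.comp
        (Primrec.fst.comp Primrec.fst)
        (Primrec.encode.comp (Primrec.fst.comp Primrec.snd)))).to₂
  refine h.of_eq ?_
  intro m x
  rcases x with _ | ⟨a, b⟩
  · rfl
  · rfl

theorem prim_dc (p : ℕ) : Primrec₂ (fun (m : ℕ) (t : ℕ) => dc p m t) := by
  unfold dc
  refine Primrec.option_map ?_ ?_
  · exact Primrec.decode.comp (Primrec.nat_div.comp Primrec.snd Primrec.fst)
  · exact (Primrec.pair Primrec.snd (Primrec.nat_mod.comp (Primrec.snd.comp Primrec.fst)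
      (Primrec.fst.comp Primrec.fst))).to₂

end Num

section Tab

variable {K : ℕ} (M : Sys (Fin K) Bool) (q0 : Fin K)

/-- path length bound -/
abbrev ll : ℕ := max M.l M.B

/-- rest of a letter -/
abbrev RR : Type := (Bool → Fin M.B) × Fin (2 * ll M + 1) × (Bool → Fin M.B)

/-- the machine of the kinds of states -/
@[reducible] def CM : Sys (Fin K ⊕ Bool) Bool where
  B := M.B
  hB := M.hB
  l := ll M
  nxt _ _ := none
  a κ r j := ca M κ r j
  b κ r j := cb M κ r j
  ha κ r j := by
    unfold ca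
    split
    · exact le_max_of_le_left (M.ha _ _ _)
    · exact le_max_right _ _
  hb κ r j := by
    unfold cb
    split
    · exact le_max_of_le_left (M.hb _ _ _)
    · have := (r j).2
      split_ifs <;> exact le_max_of_le_right (by omega)

open Classical in
/-- the letter after `U` -/
noncomputable def X1 (κ : Fin K ⊕ Bool) (x : RR M) (b : Bool) : (CM M).X :=
  if b = true ∧ x.2.2 = x.1 then (κ, x.1, x.2.1.rev, x.2.2) else (κ, x)

open Classical in
/-- the finite part of the transition -/
noncomputable def FT (p : Option (Bool → Fin 3) × (Fin K ⊕ Bool) × RR M × Bool) :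
    Option (Bool → Fin 3) × RR M × Option (Option (Fin K)) :=
  (nl (CM M) p.1 (X1 M p.2.1 p.2.2.1 p.2.2.2), (fl (CM M) p.1 (X1 M p.2.1 p.2.2.1 p.2.2.2)).2,
    if p.2.2.2 = true ∧ p.2.2.1.2.2 = p.2.2.1.1 ∧ (p.2.2.1.2.1 : ℕ) = ll M then
      cn M q0 p.2.1 p.2.2.1.1 else some none)

variable (N : ℕ)

open Classical in
theorem fu_LM (β : Option (Fin (K + N + 1))) (q : Fin (K + N + 1)) (x : RR M) :
    fu (LM M q0 N) β (q, x) = (q, (X1 M (cls N q) x (decide (β = some q))).2) := by
  unfold fu X1
  simp only [decide_eq_true_eq]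
  by_cases h : β = some q ∧ x.2.2 = x.1
  · rw [if_pos h, if_pos h]
  · rw [if_neg h, if_neg h]

theorem X1_fst (κ : Fin K ⊕ Bool) (x : RR M) (b : Bool) : (X1 M κ x b).1 = κ := by
  unfold X1
  split_ifs <;> rfl

open Classical in
theorem fl_LM (α : Option (Bool → Fin 3)) (q : Fin (K + N + 1)) (x : RR M) :
    fl (LM M q0 N) α (q, x) = (q, (fl (CM M) α (cls N q, x)).2) := by
  unfold fl
  cases α with
  | none =>
    simp only
    by_cases h : ∀ j, (x.2.2 j : ℕ) = 0
    · rw [if_pos h, if_pos h]; rfl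
    · rw [if_neg h, if_neg h]
  | some v => rfl

open Classical in
theorem nl_LM (α : Option (Bool → Fin 3)) (q : Fin (K + N + 1)) (x : RR M) :
    nl (LM M q0 N) α (q, x) = nl (CM M) α (cls N q, x) := by
  unfold nl
  cases α with
  | none => rfl
  | some v => rfl

open Classical in
theorem nx_LM (α : Option (Bool → Fin 3)) (β : Option (Fin (K + N + 1))) (q : Fin (K + N + 1))
    (x : RR M) : nl (LM M q0 N) α (fu (LM M q0 N) β (q, x)) =
      (FT M q0 (α, cls N q, x, decide (β = some q))).1 := by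
  rw [fu_LM, nl_LM]
  unfold FT
  simp only
  congr 1
  exact Prod.ext (X1_fst M _ _ _).symm rfl

open Classical in
theorem out_LM (α : Option (Bool → Fin 3)) (β : Option (Fin (K + N + 1))) (q : Fin (K + N + 1))
    (x : RR M) : fl (LM M q0 N) α (fu (LM M q0 N) β (q, x)) =
      (q, (FT M q0 (α, cls N q, x, decide (β = some q))).2.1) := by
  rw [fu_LM, fl_LM]
  unfold FT
  simp only
  congr 3
  exact Prod.ext (X1_fst M _ _ _).symm rfl

/-- next machine state in the loading machine -/
def nq (N : ℕ) (q : Fin (K + N + 1)) : Option (Option (Fin K)) → Option (Fin (K + N + 1))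
  | some o => o.map (em N)
  | none => if h : (q : ℕ) + 1 < K + N + 1 then some ⟨q + 1, h⟩ else none

open Classical in
theorem nu_LM (β : Option (Fin (K + N + 1))) (q : Fin (K + N + 1)) (x : RR M)
    (α : Option (Bool → Fin 3)) : nu (LM M q0 N) β (q, x) =
      nq N q (FT M q0 (α, cls N q, x, decide (β = some q))).2.2 := by
  unfold nu FT
  simp only [decide_eq_true_eq]
  by_cases h : β = some q ∧ x.2.2 = x.1 ∧ (x.2.1 : ℕ) = ll M
  · rw [if_pos h, if_pos h]
    show (match cn M q0 (cls N q) x.1 with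
      | some o => o.map (em N)
      | none => if h : (q : ℕ) + 1 < K + N + 1 then some ⟨q + 1, h⟩ else none) = _
    cases cn M q0 (cls N q) x.1 <;> rfl
  · rw [if_neg h, if_neg h]
    rfl

/-- number of small vectors and `V` -/
noncomputable def a0 : ℕ := Nat.card (Option (Bool → Fin 3))

/-- numbering -/
noncomputable def cA : Option (Bool → Fin 3) ≃ Fin a0 := Finite.equivFin _

/-- number of rests -/
noncomputable def r0 : ℕ := Nat.card (RR M)

/-- numbering -/
noncomputable def cR : RR M ≃ Fin (r0 M) := Finite.equivFin _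

/-- the finite part in numbers -/
noncomputable def FN (p : Fin a0 × (Fin K ⊕ Bool) × Fin (r0 M) × Bool) :
    Fin a0 × Fin (r0 M) × Option (Option (Fin K)) :=
  let z := FT M q0 (cA.symm p.1, p.2.1, (cR M).symm p.2.2.1, p.2.2.2)
  (cA z.1, cR M z.2.1, z.2.2)

/-- code of the next machine state -/
def nb (q : ℕ) : Option (Option (Fin K)) → ℕ
  | none => q + 2
  | some none => 0
  | some (some q') => (q' : ℕ) + 1

/-- The transition in numbers -/
noncomputable def ev (w : Fin a0 × ℕ) (N : ℕ) (s : Option (Fin a0 × ℕ))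
    (x : Option (Fin (r0 M) × ℕ)) : Option (Fin a0 × ℕ) × Option (Fin (r0 M) × ℕ) :=
  match s, x with
  | some s, some x =>
    let z := FN M q0 (s.1, cls N x.2, x.1, decide (s.2 = x.2 + 1))
    (some (z.1, nb x.2 z.2.2), some (z.2.1, x.2))
  | some _, none => (some (cA (some fun _ => 1), 0), none)
  | none, some y => (some (cA (some fun _ => 1), 0), some y)
  | none, none => (some w, none)

/-- entries of the table -/
noncomputable def ff (w : Fin a0 × ℕ) (N t u : ℕ) : ℕ × ℕ :=
  let z := ev M q0 w N (dc a0 (K + N + 2) t) (dc (r0 M) (K + N + 1) u)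
  (cd a0 (K + N + 2) z.1, cd (r0 M) (K + N + 1) z.2)

/-- numbering of the states -/
noncomputable def eS : Option (SS (Fin (K + N + 1)) Bool) ≃ Fin (a0 * (K + N + 2) + 1) :=
  (Equiv.optionCongr ((Equiv.prodCongr cA (finSuccEquiv (K + N + 1)).symm).trans
    finProdFinEquiv)).trans finSuccEquivLast.symm

/-- numbering of the letters -/
noncomputable def eX : Option (LM M q0 N).X ≃ Fin (r0 M * (K + N + 1) + 1) :=
  (Equiv.optionCongr (((Equiv.prodCongr (Equiv.refl (Fin (K + N + 1))) (cR M)).trans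
    (Equiv.prodComm _ _)).trans finProdFinEquiv)).trans finSuccEquivLast.symm

theorem eS_none : (eS (K := K) N none : ℕ) = a0 * (K + N + 2) := by
  simp [eS]

/-- code of an optional state -/
def cb' (m : ℕ) (β : Option (Fin m)) : ℕ := β.elim 0 (fun q => (q : ℕ) + 1)

theorem eS_some (α : Option (Bool → Fin 3)) (β : Option (Fin (K + N + 1))) :
    (eS (K := K) N (some (α, β)) : ℕ) = cb' _ β + (K + N + 2) * cA α := by
  cases β with
  | none => simp [eS, cb']
  | some q => simp [eS, cb']

theorem eX_none : (eX M q0 N none : ℕ) = r0 M * (K + N + 1) := by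
  simp [eX]

theorem eX_some (q : Fin (K + N + 1)) (x : RR M) :
    (eX M q0 N (some (q, x)) : ℕ) = q + (K + N + 1) * cR M x := by
  simp [eX]

theorem cb'_lt (m : ℕ) (β : Option (Fin m)) : cb' m β < m + 1 := by
  cases β with
  | none => simp [cb']
  | some q => have := q.2; simp [cb']

theorem dc_eS (s : Option (SS (Fin (K + N + 1)) Bool)) :
    dc a0 (K + N + 2) (eS N s) = s.map (fun s => (cA s.1, cb' _ s.2)) := by
  rcases s with _ | ⟨α, β⟩
  · rw [eS_none, dc_none _ _ (by omega)]; rfl
  · rw [eS_some, dc_some _ _ _ _ (cb'_lt _ β)]; rfl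

theorem dc_eX (x : Option (LM M q0 N).X) :
    dc (r0 M) (K + N + 1) (eX M q0 N x) = x.map (fun x => (cR M x.2, (x.1 : ℕ))) := by
  rcases x with _ | ⟨q, x⟩
  · rw [eX_none, dc_none _ _ (by omega)]; rfl
  · rw [eX_some, dc_some _ _ _ _ q.2]; rfl

theorem cd_eS (s : Option (SS (Fin (K + N + 1)) Bool)) :
    cd a0 (K + N + 2) (s.map (fun s => (cA s.1, cb' _ s.2))) = eS N s := by
  rcases s with _ | ⟨α, β⟩
  · rw [eS_none]; rfl
  · rw [eS_some]; rfl

theorem cd_eX (x : Option (LM M q0 N).X) :
    cd (r0 M) (K + N + 1) (x.map (fun x => (cR M x.2, (x.1 : ℕ)))) = eX M q0 N x := by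
  rcases x with _ | ⟨q, x⟩
  · rw [eX_none]; rfl
  · rw [eX_some]; rfl

open Classical in
theorem nb_nq (q : Fin (K + N + 1)) (x : RR M) (α : Option (Bool → Fin 3)) (b : Bool) :
    nb q (FT M q0 (α, cls N q, x, b)).2.2 =
      cb' _ (nq N q (FT M q0 (α, cls N q, x, b)).2.2) := by
  rcases h : (FT M q0 (α, cls N q, x, b)).2.2 with _ | _ | q'
  · have h1 : (q : ℕ) + 1 < K + N + 1 := by
      unfold FT at h
      simp only at h
      split_ifs at h with h2
      · unfold cn at h
        split at h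
        · simp at h
        · rename_i hc
          unfold cls at hc
          split_ifs at hc with h3
          simp only [Sum.inr.injEq, decide_eq_true_eq] at hc
          omega
        · simp at h
    simp only [nb, nq, dif_pos h1, cb', Option.elim]
  · rfl
  · rfl

theorem ff_spec (w : SS (Fin (K + N + 1)) Bool) (s : Option (SS (Fin (K + N + 1)) Bool))
    (x : Option (LM M q0 N).X) :
    ff M q0 (cA w.1, cb' _ w.2) N (eS N s) (eX M q0 N x) =
      ((eS N (((MA (LM M q0 N)).ext e0 w).nx s x) : ℕ),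
        (eX M q0 N (((MA (LM M q0 N)).ext e0 w).out s x) : ℕ)) := by
  classical
  unfold ff
  rw [dc_eS, dc_eX, ← cd_eS, ← cd_eX]
  have he : (some (e0 : SS (Fin (K + N + 1)) Bool)).map (fun s => (cA s.1, cb' _ s.2)) =
    some (cA (some fun _ => 1), 0) := rfl
  rcases s with _ | ⟨α, β⟩
  · rcases x with _ | ⟨q, x⟩
    · rfl
    · rfl
  · rcases x with _ | ⟨q, x⟩
    · rfl
    · have h1 : ((MA (LM M q0 N)).ext e0 w).nx (some (α, β)) (some (q, x)) =
          some (nl (LM M q0 N) α (fu (LM M q0 N) β (q, x)), nu (LM M q0 N) β (q, x)) := rfl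
      have h2 : ((MA (LM M q0 N)).ext e0 w).out (some (α, β)) (some (q, x)) =
          some (fl (LM M q0 N) α (fu (LM M q0 N) β (q, x))) := rfl
      rw [h1, h2, nx_LM, out_LM, nu_LM M q0 N β q x α]
      have hb : decide (cb' _ β = (q : ℕ) + 1) = decide (β = some q) := by
        apply decide_eq_decide.mpr
        cases β with
        | none => simp [cb']
        | some q' => simp [cb', Fin.ext_iff]
      show (cd a0 (K + N + 2) (ev M q0 _ N (some (cA α, cb' _ β)) (some (cR M x, (q : ℕ)))).1,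
        cd (r0 M) (K + N + 1) (ev M q0 _ N (some (cA α, cb' _ β)) (some (cR M x, (q : ℕ)))).2) = _
      simp only [ev, FN, hb, Equiv.symm_apply_apply, nb_nq M q0 N q x α, Option.map_some]

/-- The code of the extended automaton. -/
noncomputable def cc (w : Fin a0 × ℕ) (N : ℕ) : Code :=
  (r0 M * (K + N + 1) + 1, tab (a0 * (K + N + 2) + 1) (r0 M * (K + N + 1) + 1) (ff M q0 w N))

theorem r0_pos : 0 < r0 M := by
  have hB := M.hB
  have : Nonempty (RR M) := ⟨(fun _ => ⟨0, hB⟩, 0, fun _ => ⟨0, hB⟩)⟩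
  exact Nat.card_pos

theorem cc_valid (w : SS (Fin (K + N + 1)) Bool) : Valid (cc M q0 (cA w.1, cb' _ w.2) N) := by
  refine tab_valid ((MA (LM M q0 N)).ext e0 w) (eS N) (eX M q0 N) (ff_spec M q0 N w) ?_
  have := r0_pos M
  nlinarith

theorem cc_iso (w : SS (Fin (K + N + 1)) Bool) :
    Nonempty (GA (cc M q0 (cA w.1, cb' _ w.2) N) ≃* ((MA (LM M q0 N)).ext e0 w).grp) :=
  tab_iso ((MA (LM M q0 N)).ext e0 w) (eS N) (eX M q0 N) (ff_spec M q0 N w)

/-! ### computability -/

theorem prim_cls : Primrec₂ (fun (N s : ℕ) => (cls N s : Fin K ⊕ Bool)) := by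
  have h : Primrec₂ (fun (N s : ℕ) => @Option.casesOn _ (fun _ => Fin K ⊕ Bool)
      (Encodable.decode s : Option (Fin K))
      (Sum.inr (decide (s < K + N))) (fun q => Sum.inl q)) := by
    refine Primrec.option_casesOn (Primrec.decode.comp Primrec.snd) ?_ ?_
    · refine Primrec.sumInr.comp ?_
      exact Primrec.nat_lt.decide.comp Primrec.snd
        (Primrec.nat_add.comp (Primrec.const K) Primrec.fst)
    · exact (Primrec.sumInl.comp Primrec.snd).to₂
  refine h.of_eq ?_
  intro N s
  unfold cls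
  by_cases h : s < K
  · rw [dif_pos h]
    rw [dec_fin, dif_pos h]
  · rw [dif_neg h]
    rw [dec_fin, dif_neg h]

theorem prim_nb : Primrec₂ (fun (q : ℕ) (o : Option (Option (Fin K))) => nb q o) := by
  have h : Primrec₂ (fun (q : ℕ) (o : Option (Option (Fin K))) =>
      @Option.casesOn _ (fun _ => ℕ) o (q + 2) (fun o' => @Option.casesOn _ (fun _ => ℕ) o' 0
        (fun q' : Fin K => Encodable.encode q' + 1))) := by
    refine Primrec.option_casesOn Primrec.snd ?_ ?_
    · exact Primrec.nat_add.comp Primrec.fst (Primrec.const 2)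
    · unfold Primrec₂
      refine Primrec.option_casesOn Primrec.snd (Primrec.const 0) ?_
      exact (Primrec.succ.comp (Primrec.encode.comp Primrec.snd)).to₂
  refine h.of_eq ?_
  intro q o
  rcases o with _ | _ | q' <;> rfl

theorem prim_ev (w : Fin a0 × ℕ) : Primrec (fun p : ℕ × Option (Fin a0 × ℕ) ×
    Option (Fin (r0 M) × ℕ) => ev M q0 w p.1 p.2.1 p.2.2) := by
  have hF : Primrec (FN M q0) := Primrec.dom_finite _
  have h : Primrec (fun p : ℕ × Option (Fin a0 × ℕ) × Option (Fin (r0 M) × ℕ) =>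
      @Option.casesOn _ (fun _ => Option (Fin a0 × ℕ) × Option (Fin (r0 M) × ℕ)) p.2.1
        (@Option.casesOn _ (fun _ => Option (Fin a0 × ℕ) × Option (Fin (r0 M) × ℕ)) p.2.2
          (some w, none) (fun y => (some (cA (some fun _ => 1), 0), some y)))
        (fun s => @Option.casesOn _ (fun _ => Option (Fin a0 × ℕ) × Option (Fin (r0 M) × ℕ)) p.2.2
          (some (cA (some fun _ => 1), 0), none)
          (fun x => (fun z : Fin a0 × Fin (r0 M) × Option (Option (Fin K)) =>
            ((some (z.1, nb x.2 z.2.2), some (z.2.1, x.2)) :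
              Option (Fin a0 × ℕ) × Option (Fin (r0 M) × ℕ)))
            (FN M q0 (s.1, cls p.1 x.2, x.1, decide (s.2 = x.2 + 1)))))) := by
    refine Primrec.option_casesOn (Primrec.fst.comp Primrec.snd) ?_ ?_
    · refine Primrec.option_casesOn (Primrec.snd.comp Primrec.snd) (Primrec.const _) ?_
      exact (Primrec.pair (Primrec.const _) (Primrec.option_some.comp Primrec.snd)).to₂
    · unfold Primrec₂
      refine Primrec.option_casesOn (Primrec.snd.comp (Primrec.snd.comp Primrec.fst))
        (Primrec.const _) ?_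
      -- argument: ((p, s), x)
      have hs : Primrec (fun a : ((ℕ × Option (Fin a0 × ℕ) × Option (Fin (r0 M) × ℕ)) ×
          (Fin a0 × ℕ)) × (Fin (r0 M) × ℕ) => a.1.2) := Primrec.snd.comp Primrec.fst
      have hx : Primrec (fun a : ((ℕ × Option (Fin a0 × ℕ) × Option (Fin (r0 M) × ℕ)) ×
          (Fin a0 × ℕ)) × (Fin (r0 M) × ℕ) => a.2) := Primrec.snd
      have hN : Primrec (fun a : ((ℕ × Option (Fin a0 × ℕ) × Option (Fin (r0 M) × ℕ)) ×
          (Fin a0 × ℕ)) × (Fin (r0 M) × ℕ) => a.1.1.1) :=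
        Primrec.fst.comp (Primrec.fst.comp Primrec.fst)
      have hd : Primrec (fun a : ((ℕ × Option (Fin a0 × ℕ) × Option (Fin (r0 M) × ℕ)) ×
          (Fin a0 × ℕ)) × (Fin (r0 M) × ℕ) => decide (a.1.2.2 = a.2.2 + 1)) :=
        Primrec.eq.decide.comp (Primrec.snd.comp hs) (Primrec.succ.comp (Primrec.snd.comp hx))
      have hz : Primrec (fun a : ((ℕ × Option (Fin a0 × ℕ) × Option (Fin (r0 M) × ℕ)) ×
          (Fin a0 × ℕ)) × (Fin (r0 M) × ℕ) =>
          FN M q0 (a.1.2.1, cls a.1.1.1 a.2.2, a.2.1, decide (a.1.2.2 = a.2.2 + 1))) :=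
        hF.comp (Primrec.pair (Primrec.fst.comp hs)
          (Primrec.pair (prim_cls.comp hN (Primrec.snd.comp hx))
            (Primrec.pair (Primrec.fst.comp hx) hd)))
      exact (Primrec.pair
        (Primrec.option_some.comp (Primrec.pair (Primrec.fst.comp hz)
          (prim_nb.comp (Primrec.snd.comp hx) (Primrec.snd.comp (Primrec.snd.comp hz)))))
        (Primrec.option_some.comp (Primrec.pair (Primrec.fst.comp (Primrec.snd.comp hz))
          (Primrec.snd.comp hx)))).to₂
  refine h.of_eq ?_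
  rintro ⟨N, s, x⟩
  rcases s with _ | s <;> rcases x with _ | x <;> rfl

theorem prim_ff (w : Fin a0 × ℕ) :
    Primrec (fun p : ℕ × ℕ × ℕ => ff M q0 w p.1 p.2.1 p.2.2) := by
  have hm2 : Primrec (fun p : ℕ × ℕ × ℕ => K + p.1 + 2) :=
    Primrec.nat_add.comp (Primrec.nat_add.comp (Primrec.const K) Primrec.fst) (Primrec.const 2)
  have hm1 : Primrec (fun p : ℕ × ℕ × ℕ => K + p.1 + 1) :=
    Primrec.nat_add.comp (Primrec.nat_add.comp (Primrec.const K) Primrec.fst) (Primrec.const 1)
  have h1 : Primrec (fun p : ℕ × ℕ × ℕ => dc a0 (K + p.1 + 2) p.2.1) :=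
    (prim_dc a0).comp hm2 (Primrec.fst.comp Primrec.snd)
  have h2 : Primrec (fun p : ℕ × ℕ × ℕ => dc (r0 M) (K + p.1 + 1) p.2.2) :=
    (prim_dc (r0 M)).comp hm1 (Primrec.snd.comp Primrec.snd)
  have hz := (prim_ev M q0 w).comp (Primrec.pair Primrec.fst (Primrec.pair h1 h2))
  exact Primrec.pair ((prim_cd a0).comp hm2 (Primrec.fst.comp hz))
    ((prim_cd (r0 M)).comp hm1 (Primrec.snd.comp hz))

theorem prim_cc (w : Fin a0 × ℕ) : Primrec (cc M q0 w) := by
  have hn : Primrec (fun N : ℕ => a0 * (K + N + 2) + 1) :=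
    Primrec.succ.comp (Primrec.nat_mul.comp (Primrec.const _)
      (Primrec.nat_add.comp (Primrec.nat_add.comp (Primrec.const K) Primrec.id)
        (Primrec.const 2)))
  have hk : Primrec (fun N : ℕ => r0 M * (K + N + 1) + 1) :=
    Primrec.succ.comp (Primrec.nat_mul.comp (Primrec.const _)
      (Primrec.nat_add.comp (Primrec.nat_add.comp (Primrec.const K) Primrec.id)
        (Primrec.const 1)))
  refine Primrec.pair hk ?_
  unfold tab
  refine Primrec.list_map (Primrec.list_range.comp hn) ?_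
  unfold Primrec₂
  refine Primrec.list_map (Primrec.list_range.comp (hk.comp Primrec.fst)) ?_
  exact ((prim_ff M q0 w).comp (Primrec.pair (Primrec.fst.comp Primrec.fst)
    (Primrec.pair (Primrec.snd.comp Primrec.fst) Primrec.snd))).to₂

end Tab

end Pool.Agent.H662R2.AG
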