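import Pool.Agent.H923R2.FP.Stubs

/-! F1a: the liberation identity for words without the letter `s`. -/

set_option autoImplicit false

noncomputable section

namespace Pool.Agent.H923R2.FP.T_F1a

open Pool.Agent.H923R2.FP

section

variable {A Q R : Type} [CStarAlgebra A] (τ : A →ₗ[ℂ] ℂ) (θ : Lt Q R → A)

theorem lin_left (β : A) (c : ℂ) (α α' : A) (w : List (Lt Q R)) :
    phi τ θ β (c • α + α') w = c * phi τ θ β α w + phi τ θ β α' w := by
  induction w generalizing α α' with
  | nil => simp
  | cons z w ih =>
    have h1 : (c • α + α') * θ z = c • (α * θ z) + α' * θ z := by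
      rw [add_mul, smul_mul_assoc]
    rw [phi_cons, phi_cons, phi_cons, h1, ih]
    simp only [map_add, map_smul, smul_eq_mul]
    split_ifs
    · ring
    · ring

theorem lin_right (α : A) (c : ℂ) (β β' : A) (w : List (Lt Q R)) :
    phi τ θ (c • β + β') α w = c * phi τ θ β α w + phi τ θ β' α w := by
  induction w generalizing α with
  | nil => simp
  | cons z w ih =>
    rw [phi_cons, phi_cons, phi_cons, ih]
    simp only [mul_add, mul_smul_comm, map_add, map_smul, smul_eq_mul]
    split_ifs
    · ring
    · ring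

theorem dec_head (α β : A) (c : ℂ) (z z0 : Lt Q R) (h : θ z = c • (1 : A) + θ z0)
    (hz : z.isQ = z0.isQ) (w : List (Lt Q R)) :
    phi τ θ β α (z :: w) = c * phi τ θ β α w + phi τ θ β α (z0 :: w) := by
  have h1 : α * θ z = c • α + α * θ z0 := by
    rw [h, mul_add, mul_smul_comm, mul_one]
  have h2 : θ z * ev θ w * β = c • (ev θ w * β) + θ z0 * ev θ w * β := by
    rw [h, add_mul, add_mul, smul_mul_assoc, one_mul, smul_mul_assoc]
  rw [phi_cons, phi_cons, h1, h2, lin_left, hz]
  simp only [map_add, map_smul, smul_eq_mul]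
  split_ifs
  · ring
  · ring

theorem dec (c : ℂ) (z z0 : Lt Q R) (h : θ z = c • (1 : A) + θ z0)
    (hz : z.isQ = z0.isQ) (l w : List (Lt Q R)) :
    phi τ θ 1 1 (l ++ z :: w) = c * phi τ θ 1 1 (l ++ w) + phi τ θ 1 1 (l ++ z0 :: w) := by
  rw [phi_append, phi_append, phi_append, dec_head τ θ _ _ c z z0 h hz]
  have h1 : ev θ (z :: w) * 1 = c • (ev θ w * 1) + ev θ (z0 :: w) * 1 := by
    rw [ev_cons, ev_cons, h, add_mul, smul_mul_assoc, one_mul, add_mul, smul_mul_assoc]
  rw [h1, lin_right]
  ring

theorem mrg (x y z : Lt Q R) (h : θ z = θ x * θ y) (hx : x.isQ = z.isQ) (hy : y.isQ = z.isQ)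
    (l w : List (Lt Q R)) :
    phi τ θ 1 1 (l ++ x :: y :: w) = phi τ θ 1 1 (l ++ z :: w) := by
  have h1 : ev θ (x :: y :: w) = ev θ (z :: w) := by
    rw [ev_cons, ev_cons, ev_cons, h, mul_assoc]
  have h2 : ∀ α β : A, phi τ θ β α (x :: y :: w) = phi τ θ β α (z :: w) := by
    intro α β
    rw [phi_cons, phi_cons, phi_cons, h, hx, hy, ev_cons]
    simp only [mul_assoc]
    split_ifs
    · ring
    · ring
  rw [phi_append, phi_append, h1, h2]

/-- all letters are centred and the word is alternating -/
theorem red (hf : ∀ w : List (Lt Q R), w ≠ [] → (∀ z ∈ w, z.isS = false) →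
      (w.map Lt.isQ).IsChain (fun a b => a ≠ b) → (∀ z ∈ w, τ (θ z) = 0) → τ (ev θ w) = 0)
    (l w : List (Lt Q R)) (hs : ∀ z ∈ l ++ w, z.isS = false)
    (hc : ((l ++ w).map Lt.isQ).IsChain (fun a b => a ≠ b)) (h0 : ∀ z ∈ l ++ w, τ (θ z) = 0) :
    phi τ θ 1 (ev θ l) w = 0 := by
  induction w generalizing l with
  | nil => simp
  | cons z w ih =>
    have e1 : l ++ z :: w = (l ++ [z]) ++ w := by simp
    have h1 : τ (ev θ (l ++ [z])) = 0 := by
      refine hf _ (by simp) (fun x hx => hs x ?_) ?_ (fun x hx => h0 x ?_)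
      · rw [e1]; exact List.mem_append_left _ hx
      · rw [e1, List.map_append] at hc
        exact (List.isChain_append.1 hc).1
      · rw [e1]; exact List.mem_append_left _ hx
    have h2 : τ (ev θ (z :: w)) = 0 := by
      refine hf _ (by simp) (fun x hx => hs x (List.mem_append_right _ hx)) ?_
        (fun x hx => h0 x (List.mem_append_right _ hx))
      rw [List.map_append] at hc
      exact (List.isChain_append.1 hc).2.1
    have h3 : ev θ l * θ z = ev θ (l ++ [z]) := by simp
    have h4 : θ z * ev θ w * 1 = ev θ (z :: w) := by rw [ev_cons, mul_one]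
    rw [phi_cons, h3, h4, h1, h2, ih (l ++ [z]) (by rw [← e1]; exact hs) (by rw [← e1]; exact hc)
      (by rw [← e1]; exact h0)]
    simp

/-- the induction -/
theorem main (hf : ∀ w : List (Lt Q R), w ≠ [] → (∀ z ∈ w, z.isS = false) →
      (w.map Lt.isQ).IsChain (fun a b => a ≠ b) → (∀ z ∈ w, τ (θ z) = 0) → τ (ev θ w) = 0)
    (hd : ∀ z : Lt Q R, z.isS = false → ∃ (c : ℂ) (z0 : Lt Q R), z0.isS = false ∧
      z.isQ = z0.isQ ∧ θ z = c • (1 : A) + θ z0 ∧ τ (θ z0) = 0)
    (hm : ∀ x y : Lt Q R, x.isS = false → y.isS = false → x.isQ = y.isQ →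
      ∃ z : Lt Q R, z.isS = false ∧ x.isQ = z.isQ ∧ θ z = θ x * θ y) :
    ∀ (n : ℕ) (w : List (Lt Q R)), w.length ≤ n → (∀ z ∈ w, z.isS = false) →
      phi τ θ 1 1 w = 0 := by
  intro n
  induction n with
  | zero =>
    intro w hw _
    rw [List.length_eq_zero_iff.1 (Nat.le_zero.1 hw)]
    simp
  | succ n ih =>
    intro w hw hs
    by_cases hc : (w.map Lt.isQ).IsChain (fun a b => a ≠ b)
    · -- inner induction over the letters that are not yet centred
      have key : ∀ (w₂ w₁ : List (Lt Q R)), (w₁ ++ w₂).length ≤ n + 1 →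
          (∀ z ∈ w₁ ++ w₂, z.isS = false) →
          ((w₁ ++ w₂).map Lt.isQ).IsChain (fun a b => a ≠ b) → (∀ z ∈ w₁, τ (θ z) = 0) →
          phi τ θ 1 1 (w₁ ++ w₂) = 0 := by
        intro w₂
        induction w₂ with
        | nil =>
          intro w₁ _ h2 h3 h4
          rw [List.append_nil] at h2 h3 ⊢
          exact red τ θ hf [] w₁ h2 h3 h4
        | cons z w₂ ih2 =>
          intro w₁ h1 h2 h3 h4
          obtain ⟨c, z0, hz0, hzq, hz, hz1⟩ := hd z (h2 z (by simp))
          have e1 : w₁ ++ z0 :: w₂ = (w₁ ++ [z0]) ++ w₂ := by simp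
          rw [dec τ θ c z z0 hz hzq w₁ w₂, ih (w₁ ++ w₂), mul_zero, zero_add, e1]
          · refine ih2 (w₁ ++ [z0]) ?_ ?_ ?_ ?_
            · rw [← e1]
              simpa using h1
            · rw [← e1]
              intro x hx
              rcases List.mem_append.1 hx with hx | hx
              · exact h2 x (List.mem_append_left _ hx)
              · rcases List.mem_cons.1 hx with hx | hx
                · rw [hx]; exact hz0
                · exact h2 x (List.mem_append_right _ (List.mem_cons_of_mem _ hx))
            · rw [← e1]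
              simp only [List.map_append, List.map_cons] at h3 ⊢
              rw [← hzq]
              exact h3
            · intro x hx
              rcases List.mem_append.1 hx with hx | hx
              · exact h4 x hx
              · rw [List.mem_singleton.1 hx]; exact hz1
          · simp only [List.length_append, List.length_cons] at h1 ⊢
            omega
          · intro x hx
            rcases List.mem_append.1 hx with hx | hx
            · exact h2 x (List.mem_append_left _ hx)
            · exact h2 x (List.mem_append_right _ (List.mem_cons_of_mem _ hx))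
      exact key w [] hw hs hc (by simp)
    · rw [List.isChain_map, List.isChain_iff_forall_rel_of_append_cons_cons] at hc
      push Not at hc
      obtain ⟨x, y, l, r, hw1, hxy⟩ := hc
      subst hw1
      obtain ⟨z, hz, hxz, hθ⟩ := hm x y (hs x (by simp)) (hs y (by simp)) hxy
      rw [mrg τ θ x y z hθ hxz (by rw [← hxy]; exact hxz) l r]
      apply ih
      · simp only [List.length_append, List.length_cons] at hw ⊢
        omega
      · intro u hu
        rcases List.mem_append.1 hu with hu | hu
        · exact hs u (List.mem_append_left _ hu)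
        · rcases List.mem_cons.1 hu with hu | hu
          · rw [hu]; exact hz
          · exact hs u (List.mem_append_right _
              (List.mem_cons_of_mem _ (List.mem_cons_of_mem _ hu)))

end

theorem t_F1a : S_F1a := by
  intro A Q R _ _ _ _ _ _ _ τ π ρ s hτ hS w hw
  refine main τ (vl π ρ s) ?_ ?_ ?_ w.length w le_rfl hw
  · intro w h1 h2 h3 h4
    refine hS.free w h1 ⟨h2, ?_⟩ h4
    rw [List.isChain_map] at h3
    exact h3
  · intro z hz
    cases z with
    | q x =>
      refine ⟨τ (π x), Lt.q (x - τ (π x) • (1 : Q)), rfl, rfl, ?_, ?_⟩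
      · simp
      · simp [hτ.one]
    | r x =>
      refine ⟨τ (ρ x), Lt.r (x - τ (ρ x) • (1 : R)), rfl, rfl, ?_, ?_⟩
      · simp
      · simp [hτ.one]
    | s => simp [Lt.isS] at hz
  · intro x y hx hy hxy
    cases x with
    | q x =>
      cases y with
      | q y => exact ⟨Lt.q (x * y), rfl, rfl, by simp⟩
      | r y => simp [Lt.isQ] at hxy
      | s => simp [Lt.isS] at hy
    | r x =>
      cases y with
      | q y => simp [Lt.isQ] at hxy
      | r y => exact ⟨Lt.r (x * y), rfl, rfl, by simp⟩
      | s => simp [Lt.isS] at hy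
    | s => simp [Lt.isS] at hx

end Pool.Agent.H923R2.FP.T_F1a
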