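import Mathlib
import Pool.Agent.Helper147.Univ

/-!
Multi-stack machines with finitely many states that compute partial recursive functions, with a
distinguished way of halting for the value zero.
-/

set_option autoImplicit false

namespace Pool.Agent.H662R2.SM

open Turing Relation

/-- A multi-stack machine: in state `q` it looks at the top letter of the stack `κ q` and replaces
it by a word (first letter on top) while going to a new state. -/
structure Mach (K Γ Q : Type) where
  κ : Q → K
  δ : Q → Γ → Option (Q × List Γ)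

/-- One step. -/
def Mach.step {K Γ Q : Type} [DecidableEq K] (M : Mach K Γ Q) (c : Q × (K → List Γ)) :
    Option (Q × (K → List Γ)) :=
  match c.2 (M.κ c.1) with
  | [] => none
  | o :: z => (M.δ c.1 o).map (fun p => (p.1, Function.update c.2 (M.κ c.1) (p.2 ++ z)))

/-- Reachability in finitely many steps. -/
def Mach.Reaches {K Γ Q : Type} [DecidableEq K] (M : Mach K Γ Q) :
    Q × (K → List Γ) → Q × (K → List Γ) → Prop :=
  ReflTransGen (fun a b => M.step a = some b)

section big

open PartrecToTM2 (Γ' K' Stmt' tr trNat trList)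

/-- states of the large machine -/
abbrev St : Type := TM2.Stmt (fun _ : K' => Γ') PartrecToTM2.Λ' (Option Γ') × Option Γ'

/-- stack read by a statement -/
def kap : TM2.Stmt (fun _ : K' => Γ') PartrecToTM2.Λ' (Option Γ') → K'
  | .push k _ _ => k
  | .peek k _ _ => k
  | .pop k _ _ => k
  | _ => .main

/-- small steps -/
def trans : TM2.Stmt (fun _ : K' => Γ') PartrecToTM2.Λ' (Option Γ') → Option Γ' → Option Γ' →
    Option (St × List (Option Γ'))
  | .push _ f q, v, o => some ((q, v), [some (f v), o])
  | .peek _ f q, v, o => some ((q, f v o), [o])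
  | .pop _ f q, v, none => some ((q, f v none), [none])
  | .pop _ f q, v, some x => some ((q, f v (some x)), [])
  | .load a q, v, o => some ((q, a v), [o])
  | .branch f q₁ q₂, v, o => some ((cond (f v) q₁ q₂, v), [o])
  | .goto l, v, o => some ((tr (l v), v), [o])
  | .halt, _, _ => none

/-- the large machine -/
def Mbig : Mach K' (Option Γ') St := ⟨fun q => kap q.1, fun q o => trans q.1 q.2 o⟩

/-- stack contents followed by a bottom letter -/
def enc (w : List Γ') : List (Option Γ') := w.map some ++ [none]

/-- translation of configurations -/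
def encCfg (c : TM2.Cfg (fun _ : K' => Γ') PartrecToTM2.Λ' (Option Γ')) :
    St × (K' → List (Option Γ')) :=
  ((match c.l with
    | some l => tr l
    | none => .halt, c.var), fun k => enc (c.stk k))

theorem enc_update (S : K' → List Γ') (k : K') (w : List Γ') :
    (fun j => enc (Function.update S k w j)) = Function.update (fun j => enc (S j)) k (enc w) := by
  funext j
  by_cases h : j = k
  · subst h; simp
  · simp [h]

theorem small (q : TM2.Stmt (fun _ : K' => Γ') PartrecToTM2.Λ' (Option Γ')) :
    ∀ (v : Option Γ') (S : K' → List Γ'),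
      Mbig.Reaches ((q, v), fun k => enc (S k)) (encCfg (TM2.stepAux q v S)) := by
  have upd : ∀ (S : K' → List (Option Γ')) (k : K') (w : List (Option Γ')), S k = w →
      Function.update S k w = S := by
    intro S k w h
    rw [← h]
    simp
  induction q with
  | push k f q ih =>
    intro v S
    have h := ih v (Function.update S k (f v :: S k))
    refine ReflTransGen.head ?_ (by simpa [TM2.stepAux, Mach.Reaches] using h)
    rw [enc_update]
    rcases hS : S k with _ | ⟨x, z⟩ <;>
      simp [Mach.step, Mbig, kap, enc, hS, trans]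
  | peek k f q ih =>
    intro v S
    have h := ih (f v (S k).head?) S
    refine ReflTransGen.head ?_ (by simpa [TM2.stepAux, Mach.Reaches] using h)
    rcases hS : S k with _ | ⟨x, z⟩ <;>
      simp [Mach.step, Mbig, kap, enc, hS, trans, upd]
  | pop k f q ih =>
    intro v S
    have h := ih (f v (S k).head?) (Function.update S k (S k).tail)
    refine ReflTransGen.head ?_ (by simpa [TM2.stepAux, Mach.Reaches] using h)
    rw [enc_update]
    rcases hS : S k with _ | ⟨x, z⟩ <;>
      simp [Mach.step, Mbig, kap, enc, hS, trans]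
  | load a q ih =>
    intro v S
    have h := ih (a v) S
    refine ReflTransGen.head ?_ (by simpa [TM2.stepAux, Mach.Reaches] using h)
    rcases hS : S .main with _ | ⟨x, z⟩ <;>
      simp [Mach.step, Mbig, kap, enc, hS, trans, upd]
  | branch f q₁ q₂ ih₁ ih₂ =>
    intro v S
    have h : Mbig.Reaches ((cond (f v) q₁ q₂, v), fun k => enc (S k))
        (encCfg (TM2.stepAux (TM2.Stmt.branch f q₁ q₂) v S)) := by
      cases hf : f v
      · simpa [TM2.stepAux, hf] using ih₂ v S
      · simpa [TM2.stepAux, hf] using ih₁ v S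
    refine ReflTransGen.head ?_ h
    rcases hS : S .main with _ | ⟨x, z⟩ <;>
      simp [Mach.step, Mbig, kap, enc, hS, trans, upd]
  | goto l =>
    intro v S
    refine ReflTransGen.single ?_
    rcases hS : S .main with _ | ⟨x, z⟩ <;>
      simp [Mach.step, Mbig, kap, enc, hS, trans, upd, TM2.stepAux, encCfg]
  | halt =>
    intro v S
    exact ReflTransGen.refl

theorem run {c c' : TM2.Cfg (fun _ : K' => Γ') PartrecToTM2.Λ' (Option Γ')}
    (h : StateTransition.Reaches (TM2.step tr) c c') : Mbig.Reaches (encCfg c) (encCfg c') := by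
  induction h with
  | refl => exact ReflTransGen.refl
  | @tail b c' _ h ih =>
    rcases b with ⟨_ | l, v, S⟩
    · simp [TM2.step] at h
    · simp only [TM2.step, Option.mem_def, Option.some.injEq] at h
      subst h
      exact ReflTransGen.trans ih (small (tr l) v S)

/-- the finite machine -/
noncomputable def Mfin (F : Finset (Option (TM2.Stmt (fun _ : K' => Γ') PartrecToTM2.Λ'
    (Option Γ')))) : Mach K' (Option Γ') {x : St // some x.1 ∈ F} := by
  classical
  exact ⟨fun q => kap q.1.1, fun q o => (trans q.1.1 q.1.2 o).bind fun p =>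
    if h : some p.1.1 ∈ F then some (⟨p.1, h⟩, p.2) else none⟩

theorem mem_stmts {Λf : Finset PartrecToTM2.Λ'} {l : PartrecToTM2.Λ'} (h : l ∈ Λf) :
    some (tr l) ∈ TM2.stmts tr Λf := by
  classical
  have h1 : tr l ∈ Λf.biUnion (fun q => TM2.stmts₁ (tr q)) :=
    Finset.mem_biUnion.2 ⟨l, h, TM2.stmts₁_self⟩
  exact Finset.some_mem_insertNone.2 h1

theorem trans_mem {Λf : Finset PartrecToTM2.Λ'}
    (hs : ∀ q ∈ Λf, TM2.SupportsStmt Λf (tr q))
    {q : TM2.Stmt (fun _ : K' => Γ') PartrecToTM2.Λ' (Option Γ')}
    (hq : some q ∈ TM2.stmts tr Λf) {v o : Option Γ'} {p : St × List (Option Γ')}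
    (hp : trans q v o = some p) : some p.1.1 ∈ TM2.stmts tr Λf := by
  have sup : TM2.SupportsStmt Λf q := by
    simp only [TM2.stmts, Finset.mem_insertNone, Finset.mem_biUnion, Option.mem_def,
      Option.some.injEq, forall_eq'] at hq
    obtain ⟨l, ls, h⟩ := hq
    exact TM2.stmts₁_supportsStmt_mono h (hs l ls)
  cases q with
  | push k f q =>
    simp only [trans, Option.some.injEq] at hp
    subst hp
    exact TM2.stmts_trans (by simp [TM2.stmts₁, TM2.stmts₁_self]) hq
  | peek k f q =>
    simp only [trans, Option.some.injEq] at hp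
    subst hp
    exact TM2.stmts_trans (by simp [TM2.stmts₁, TM2.stmts₁_self]) hq
  | pop k f q =>
    cases o with
    | none =>
      simp only [trans, Option.some.injEq] at hp
      subst hp
      exact TM2.stmts_trans (by simp [TM2.stmts₁, TM2.stmts₁_self]) hq
    | some x =>
      simp only [trans, Option.some.injEq] at hp
      subst hp
      exact TM2.stmts_trans (by simp [TM2.stmts₁, TM2.stmts₁_self]) hq
  | load a q =>
    simp only [trans, Option.some.injEq] at hp
    subst hp
    exact TM2.stmts_trans (by simp [TM2.stmts₁, TM2.stmts₁_self]) hq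
  | branch f q₁ q₂ =>
    simp only [trans, Option.some.injEq] at hp
    subst hp
    refine TM2.stmts_trans ?_ hq
    cases f v <;> simp [TM2.stmts₁, TM2.stmts₁_self]
  | goto l =>
    simp only [trans, Option.some.injEq] at hp
    subst hp
    exact mem_stmts (sup v)
  | halt => simp [trans] at hp

theorem run_fin {Λf : Finset PartrecToTM2.Λ'}
    (hs : ∀ q ∈ Λf, TM2.SupportsStmt Λf (tr q))
    {c c' : St × (K' → List (Option Γ'))} (h : Mbig.Reaches c c')
    (hc : some c.1.1 ∈ TM2.stmts tr Λf) :
    ∃ hc' : some c'.1.1 ∈ TM2.stmts tr Λf,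
      (Mfin (TM2.stmts tr Λf)).Reaches (⟨c.1, hc⟩, c.2) (⟨c'.1, hc'⟩, c'.2) := by
  induction h with
  | refl => exact ⟨hc, ReflTransGen.refl⟩
  | @tail b c' _ h ih =>
    obtain ⟨hb, ih⟩ := ih
    have : ∃ o z, b.2 (kap b.1.1) = o :: z ∧ ∃ p, trans b.1.1 b.1.2 o = some p ∧
        c' = (p.1, Function.update b.2 (kap b.1.1) (p.2 ++ z)) := by
      unfold Mach.step at h
      simp only [Mbig] at h
      rcases hh : b.2 (kap b.1.1) with _ | ⟨o, z⟩
      · simp [hh] at h
      · refine ⟨o, z, rfl, ?_⟩
        simp only [hh, Option.map_eq_some_iff] at h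
        obtain ⟨p, hp, hp'⟩ := h
        exact ⟨p, hp, hp'.symm⟩
    obtain ⟨o, z, h1, p, h2, rfl⟩ := this
    have hm := trans_mem hs hb h2
    refine ⟨hm, ReflTransGen.tail ih ?_⟩
    simp [Mach.step, Mfin, h1, h2, hm]

/-- starting stacks for the input `n` -/
def start (n : ℕ) : K' → List (Option Γ') :=
  Function.update (fun _ => [none]) K'.main ((trNat n).map some ++ [some Γ'.cons, none])

/-- For every partial recursive `u` there is a finite multi-stack machine which, started on `n`,
halts in an accepting way if `u n = 0` and halts in a different way if `u n = 1`. -/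
theorem exists_mach (u : ℕ →. ℕ) (hu : Partrec u) :
    ∃ (Q : Type) (_ : Finite Q) (M : Mach K' (Option Γ') Q) (q0 : Q)
      (acc : Q → Option Γ' → Prop),
      (∀ q o, acc q o → M.δ q o = none) ∧
      (∀ n, 0 ∈ u n → ∃ q S o z, M.Reaches (q0, start n) (q, S) ∧ S (M.κ q) = o :: z ∧
        acc q o) ∧
      (∀ n, 1 ∈ u n → ∃ q S, M.Reaches (q0, start n) (q, S) ∧ M.step (q, S) = none ∧
        ∀ o z, S (M.κ q) = o :: z → ¬ acc q o) := by
  obtain ⟨c, hc⟩ := ToPartrec.Code.exists_code (Nat.Partrec'.part_iff₁.2 hu)
  have hc' : ∀ n, c.eval [n] = (u n).map (fun m => [m]) := by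
    intro n
    have := hc ⟨[n], rfl⟩
    simp only [List.Vector.head] at this
    rw [this]
    rfl
  set Λf := PartrecToTM2.codeSupp c PartrecToTM2.Cont'.halt with hΛ
  have hsup := PartrecToTM2.tr_supports c PartrecToTM2.Cont'.halt
  have hs : ∀ q ∈ Λf, TM2.SupportsStmt Λf (tr q) := hsup.2
  have hq0 : some (tr (PartrecToTM2.trNormal c PartrecToTM2.Cont'.halt)) ∈ TM2.stmts tr Λf := by
    exact mem_stmts hsup.1
  have fin : Finite {x : St // some x.1 ∈ TM2.stmts tr Λf} := by
    classical
    have f1 : Finite {q : TM2.Stmt (fun _ : K' => Γ') PartrecToTM2.Λ' (Option Γ') //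
        some q ∈ TM2.stmts tr Λf} := by
      refine Finite.of_injective (β := {q // q ∈ TM2.stmts tr Λf}) (fun q => ⟨some q.1, q.2⟩) ?_
      intro a b h
      simp only [Subtype.mk.injEq, Option.some.injEq] at h
      exact Subtype.ext h
    refine Finite.of_injective (β := {q : TM2.Stmt (fun _ : K' => Γ') PartrecToTM2.Λ'
      (Option Γ') // some q ∈ TM2.stmts tr Λf} × Option Γ') (fun x => (⟨x.1.1, x.2⟩, x.1.2)) ?_
    intro a b h
    simp only [Prod.mk.injEq, Subtype.mk.injEq] at h
    exact Subtype.ext (Prod.ext h.1 h.2)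
  have key : ∀ n m, m ∈ u n → ∃ h, (Mfin (TM2.stmts tr Λf)).Reaches
      (⟨(tr (PartrecToTM2.trNormal c PartrecToTM2.Cont'.halt), none), hq0⟩, start n)
      (⟨(.halt, none), h⟩, start m) := by
    intro n m hm
    have h1 : (PartrecToTM2.halt [m]) ∈ StateTransition.eval (TM2.step tr)
        (PartrecToTM2.init c [n]) := by
      rw [PartrecToTM2.tr_eval, hc']
      exact (Part.mem_map_iff _).2 ⟨[m], (Part.mem_map_iff _).2 ⟨m, hm, rfl⟩, rfl⟩
    have h2 := (StateTransition.mem_eval.1 h1).1
    have h3 := run h2
    have e1 : ∀ n, (fun k => enc ((PartrecToTM2.K'.elim (trList [n]) [] [] []) k)) = start n := by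
      intro n
      funext k
      cases k <;> simp [enc, start, PartrecToTM2.K'.elim]
    have e2 : encCfg (PartrecToTM2.init c [n]) =
        ((tr (PartrecToTM2.trNormal c PartrecToTM2.Cont'.halt), none), start n) := by
      rw [← e1]
      rfl
    have e3 : encCfg (PartrecToTM2.halt [m]) = ((.halt, none), start m) := by
      rw [← e1]
      rfl
    rw [e2, e3] at h3
    exact run_fin hs h3 hq0
  refine ⟨{x : St // some x.1 ∈ TM2.stmts tr Λf}, fin, Mfin (TM2.stmts tr Λf),
    ⟨(tr (PartrecToTM2.trNormal c PartrecToTM2.Cont'.halt), none), hq0⟩,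
    fun q o => q.1.1 = .halt ∧ o = some Γ'.cons, ?_, ?_, ?_⟩
  · rintro ⟨⟨q, v⟩, hq⟩ o ⟨h, _⟩
    simp only at h
    subst h
    simp [Mfin, trans]
  · intro n hn
    obtain ⟨h, hr⟩ := key n 0 hn
    refine ⟨_, _, some Γ'.cons, [none], hr, ?_, rfl, rfl⟩
    simp [Mfin, kap, start]
  · intro n hn
    obtain ⟨h, hr⟩ := key n 1 hn
    refine ⟨_, _, hr, ?_, ?_⟩
    · have : start 1 K'.main = [some Γ'.bit1, some Γ'.cons, none] := by
        simp [start, trNat]; rfl
      simp [Mach.step, Mfin, kap, this, trans]
    · have : start 1 K'.main = [some Γ'.bit1, some Γ'.cons, none] := by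
        simp [start, trNat]; rfl
      intro o z h1 h2
      simp only [Mfin, kap, this, List.cons.injEq] at h1
      rw [h2.2] at h1
      simp at h1

end big

/-- The universal function `n ↦ φ_n(n)`. -/
def diag (n : ℕ) : Part ℕ := (Denumerable.ofNat Nat.Partrec.Code n).eval n

theorem diag_partrec : Partrec diag := by
  have h := Nat.Partrec.Code.eval_part.comp
    (Computable.ofNat Nat.Partrec.Code) (Computable.id)
  exact h

/-- The sets `{n | φ_n(n) = 0}` and `{n | φ_n(n) = 1}` are recursively inseparable. -/
theorem insep (f : ℕ → Bool) (hf : Computable f) (h0 : ∀ n, 0 ∈ diag n → f n = true)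
    (h1 : ∀ n, 1 ∈ diag n → f n = false) : False := by
  have hg : Computable (fun n => cond (f n) 1 0 : ℕ → ℕ) :=
    Computable.cond hf (Computable.const 1) (Computable.const 0)
  obtain ⟨c, hc⟩ := Nat.Partrec.Code.exists_code.1 (Partrec.nat_iff.1 hg.partrec)
  have hd : diag (Encodable.encode c) = Part.some (cond (f (Encodable.encode c)) 1 0) := by
    unfold diag
    rw [Denumerable.ofNat_encode, hc]
    rfl
  rcases hfc : f (Encodable.encode c) with _ | _
  · have := h0 (Encodable.encode c) (by rw [hd, hfc]; simp)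
    rw [hfc] at this
    exact absurd this (by simp)
  · have := h1 (Encodable.encode c) (by rw [hd, hfc]; simp)
    rw [hfc] at this
    exact absurd this (by simp)

end Pool.Agent.H662R2.SM
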