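import Mathlib
import Pool.Agent.H662R2.SM

/-!
Orbits with history of a multi-stack machine: the finite set of configurations with history of a
halting computation, seen as families of stacks, is invariant under the instructions read in both
directions.  Also the splitting of products of commuting operators.
-/

set_option autoImplicit false

namespace Pool.Agent.H662R2.Orbit

open Pool.Agent.H662R2.SM

variable {K Γ Q : Type}

/-- letters: machine letters and history letters -/
abbrev Let (Γ Q : Type) : Type := Γ ⊕ (Q × Γ)

/-- the letters on the stacks of a configuration, bottom letters first -/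
def word (ks : List K) (S : K → List Γ) : List (Option K × Let Γ Q) :=
  ks.flatMap fun s => (S s).reverse.map fun o => (some s, .inl o)

theorem split_word [DecidableEq K] {E : Type} [Monoid E] (D : K → Γ → E)
    (hD : ∀ s t a b, s ≠ t → Commute (D s a) (D t b)) (ks : List K) (hks : ks.Nodup)
    (S : K → List Γ) (k : K) (hk : k ∈ ks) (o : Γ) (z : List Γ) (hS : S k = o :: z) :
    ∃ R : E, (ks.flatMap fun s => (S s).reverse.map (D s)).prod = R * D k o ∧
      ∀ w, (ks.flatMap fun s => (Function.update S k (w ++ z) s).reverse.map (D s)).prod =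
        R * (w.reverse.map (D k)).prod := by
  obtain ⟨l₁, l₂, rfl⟩ := List.append_of_mem hk
  have hn1 : k ∉ l₁ := by
    intro h
    rw [List.nodup_append] at hks
    exact hks.2.2 _ h _ (by simp) rfl
  have hn2 : k ∉ l₂ := by
    have := (List.nodup_append.1 hks).2.1
    exact (List.nodup_cons.1 this).1
  have upd : ∀ (l : List K) (w : List Γ), k ∉ l →
      (l.flatMap fun s => (Function.update S k w s).reverse.map (D s)) =
      l.flatMap fun s => (S s).reverse.map (D s) := by
    intro l w hl
    rw [List.flatMap_def, List.flatMap_def]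
    congr 1
    apply List.map_congr_left
    intro s hs
    rw [Function.update_of_ne (by rintro rfl; exact hl hs)]
  have comm : ∀ a : Γ, Commute (D k a) (l₂.flatMap fun s => (S s).reverse.map (D s)).prod := by
    intro a
    apply Commute.list_prod_right
    intro x hx
    simp only [List.mem_flatMap, List.mem_map, List.mem_reverse] at hx
    obtain ⟨s, hs, b, _, rfl⟩ := hx
    exact hD _ _ _ _ (by rintro rfl; exact hn2 hs)
  set P1 := (l₁.flatMap fun s => (S s).reverse.map (D s)).prod with hP1
  set P2 := (l₂.flatMap fun s => (S s).reverse.map (D s)).prod with hP2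
  refine ⟨P1 * (z.reverse.map (D k)).prod * P2, ?_, ?_⟩
  · simp only [List.flatMap_append, List.flatMap_cons, List.prod_append, hS, List.reverse_cons,
      List.map_append, List.map_cons, List.map_nil, List.prod_cons, List.prod_nil, mul_one]
    rw [← hP1, ← hP2]
    simp only [mul_assoc]
    rw [(comm o).eq]
  · intro w
    simp only [List.flatMap_append, List.flatMap_cons, List.prod_append, Function.update_self,
      List.reverse_append, List.map_append]
    rw [upd _ _ hn1, upd _ _ hn2, ← hP1, ← hP2]
    have cw : Commute (w.reverse.map (D k)).prod P2 := by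
      apply Commute.list_prod_left
      intro x hx
      simp only [List.mem_map, List.mem_reverse] at hx
      obtain ⟨b, _, rfl⟩ := hx
      exact comm b
    simp only [mul_assoc]
    rw [cw.eq]

/-- put a letter on a stack -/
def push [DecidableEq K] (U : Option K → List (Let Γ Q)) (x : Option K × Let Γ Q) :
    Option K → List (Let Γ Q) :=
  Function.update U x.1 (x.2 :: U x.1)

/-- stacks and history as one family of stacks -/
def encode (S : K → List Γ) (h : List (Q × Γ)) : Option K → List (Let Γ Q)
  | some s => (S s).map Sum.inl
  | none => h.map Sum.inr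

/-- one step with history -/
def hstep [DecidableEq K] (M : Mach K Γ Q) (c c' : Q × (K → List Γ) × List (Q × Γ)) : Prop :=
  ∃ o z w, c.2.1 (M.κ c.1) = o :: z ∧ M.δ c.1 o = some (c'.1, w) ∧
    c'.2.1 = Function.update c.2.1 (M.κ c.1) (w ++ z) ∧ c'.2.2 = (c.1, o) :: c.2.2

/-- configurations with history that are reached from `(q₀, S₀)` -/
def Orb [DecidableEq K] (M : Mach K Γ Q) (q₀ : Q) (S₀ : K → List Γ)
    (c : Q × (K → List Γ) × List (Q × Γ)) : Prop :=
  Relation.ReflTransGen (hstep M) (q₀, S₀, []) c

theorem hstep_proj [DecidableEq K] {M : Mach K Γ Q} {c c' : Q × (K → List Γ) × List (Q × Γ)}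
    (h : hstep M c c') : M.step (c.1, c.2.1) = some (c'.1, c'.2.1) := by
  obtain ⟨o, z, w, h1, h2, h3, _⟩ := h
  simp [Mach.step, h1, h2, h3]

theorem orb_proj [DecidableEq K] {M : Mach K Γ Q} {q₀ : Q} {S₀ : K → List Γ}
    {c : Q × (K → List Γ) × List (Q × Γ)} (h : Orb M q₀ S₀ c) :
    M.Reaches (q₀, S₀) (c.1, c.2.1) := by
  induction h with
  | refl => exact Relation.ReflTransGen.refl
  | tail _ h ih => exact Relation.ReflTransGen.tail ih (hstep_proj h)

/-- a configuration from which a halting one is reached has finitely many successors (with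
history), and the lengths of the stacks are bounded -/
theorem orb_bound [DecidableEq K] [Finite K] (M : Mach K Γ Q) (c r : Q × (K → List Γ))
    (hr : M.Reaches c r) (hh : M.step r = none) :
    ∀ h : List (Q × Γ), ∃ N, ∀ c', Relation.ReflTransGen (hstep M) (c.1, c.2, h) c' →
      ∀ s, (encode c'.2.1 c'.2.2 s).length ≤ N := by
  have one : ∀ (S : K → List Γ) (h : List (Q × Γ)), ∃ N, ∀ s, (encode S h s).length ≤ N := by
    intro S h
    obtain ⟨N, hN⟩ := (Set.finite_range fun s : Option K => (encode S h s).length).bddAbove
    exact ⟨N, fun s => hN ⟨s, rfl⟩⟩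
  refine Relation.ReflTransGen.head_induction_on (motive := fun c _ =>
    ∀ h : List (Q × Γ), ∃ N, ∀ c', Relation.ReflTransGen (hstep M) (c.1, c.2, h) c' →
      ∀ s, (encode c'.2.1 c'.2.2 s).length ≤ N) hr ?_ ?_
  · intro h
    obtain ⟨N, hN⟩ := one r.2 h
    refine ⟨N, fun c' hc' => ?_⟩
    rcases Relation.ReflTransGen.cases_head hc' with rfl | ⟨b, hb, _⟩
    · exact hN
    · have := hstep_proj hb
      simp only [Prod.mk.eta] at this
      rw [hh] at this
      exact absurd this (by simp)
  · intro a b hab _ ih h
    have : ∃ h', hstep M (a.1, a.2, h) (b.1, b.2, h') ∧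
        ∀ c', hstep M (a.1, a.2, h) c' → c' = (b.1, b.2, h') := by
      unfold Mach.step at hab
      rcases hz : a.2 (M.κ a.1) with _ | ⟨o, z⟩
      · simp [hz] at hab
      · simp only [hz, Option.map_eq_some_iff] at hab
        obtain ⟨⟨q₁, w⟩, hδ, rfl⟩ := hab
        refine ⟨(a.1, o) :: h, ⟨o, z, w, hz, hδ, rfl, rfl⟩, ?_⟩
        rintro ⟨q₂, S₂, h₂⟩ ⟨o', z', w', e1, e2, e3, e4⟩
        simp only [hz, List.cons.injEq] at e1
        obtain ⟨rfl, rfl⟩ := e1
        simp only [hδ, Option.some.injEq, Prod.mk.injEq] at e2
        obtain ⟨rfl, rfl⟩ := e2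
        simp only at e3 e4
        rw [e3, e4]
    obtain ⟨h', _, h2⟩ := this
    obtain ⟨N, hN⟩ := ih h'
    obtain ⟨N', hN'⟩ := one a.2 h
    refine ⟨max N N', fun c' hc' s => ?_⟩
    rcases Relation.ReflTransGen.cases_head hc' with rfl | ⟨b', hb', hc''⟩
    · exact (hN' s).trans (le_max_right _ _)
    · rw [h2 b' hb'] at hc''
      exact (hN c' hc'' s).trans (le_max_left _ _)

theorem foldl_push_word [DecidableEq K] (k : K) (w : List Γ) (U : Option K → List (Let Γ Q)) :
    ((w.reverse.map fun x => ((some k, .inl x) : Option K × Let Γ Q)).foldl push U) =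
      Function.update U (some k) (w.map Sum.inl ++ U (some k)) := by
  induction w with
  | nil => simp
  | cons x w ih =>
    rw [List.reverse_cons, List.map_append, List.foldl_append, ih]
    simp [push]

theorem foldl_push_all [DecidableEq K] (ks : List K) (hks : ks.Nodup) (S : K → List Γ) :
    ∀ U : Option K → List (Let Γ Q), ((word ks S).foldl push U) =
      fun s => match s with
        | some k => if k ∈ ks then (S k).map Sum.inl ++ U (some k) else U (some k)
        | none => U none := by
  induction ks with
  | nil =>
    intro U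
    funext s
    cases s <;> simp [word]
  | cons k ks ih =>
    intro U
    have hk := (List.nodup_cons.1 hks).1
    have : word (Q := Q) (k :: ks) S =
        ((S k).reverse.map fun x => ((some k, .inl x) : Option K × Let Γ Q)) ++ word ks S := rfl
    rw [this, List.foldl_append, foldl_push_word, ih (List.nodup_cons.1 hks).2]
    funext s
    cases s with
    | none => simp
    | some s =>
      by_cases h1 : s = k
      · subst h1
        simp [hk]
      · simp [h1]

theorem orb_key [DecidableEq K] (M : Mach K Γ Q) (q₀ : Q) (S₀ : K → List Γ) {q q' : Q} {o : Γ}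
    {w : List Γ} (hδ : M.δ q o = some (q', w)) (U : Option K → List (Let Γ Q)) :
    (∃ S h, Orb M q₀ S₀ (q, S, h) ∧ encode S h = push U (some (M.κ q), .inl o)) ↔
    (∃ S h, Orb M q₀ S₀ (q', S, h) ∧ encode S h =
      push (Function.update U (some (M.κ q)) (w.map Sum.inl ++ U (some (M.κ q))))
        (none, .inr (q, o))) := by
  have inl_inj : Function.Injective (Sum.inl : Γ → Let Γ Q) := Sum.inl_injective
  have inr_inj : Function.Injective (Sum.inr : Q × Γ → Let Γ Q) := Sum.inr_injective
  constructor
  · rintro ⟨S, h, hO, he⟩
    have e1 : (S (M.κ q)).map Sum.inl = Sum.inl o :: U (some (M.κ q)) := by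
      have := congrFun he (some (M.κ q))
      simpa [encode, push] using this
    have e2 : ∀ s, s ≠ M.κ q → (S s).map Sum.inl = U (some s) := by
      intro s hs
      have := congrFun he (some s)
      simpa [encode, push, hs] using this
    have e3 : h.map Sum.inr = U none := by
      have := congrFun he none
      simpa [encode, push] using this
    rcases hS : S (M.κ q) with _ | ⟨o', z⟩
    · simp [hS] at e1
    · rw [hS, List.map_cons, List.cons.injEq] at e1
      obtain ⟨h1, h2⟩ := e1
      have h1 := inl_inj h1
      subst h1
      refine ⟨Function.update S (M.κ q) (w ++ z), (q, o') :: h,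
        Relation.ReflTransGen.tail hO ⟨o', z, w, hS, hδ, rfl, rfl⟩, ?_⟩
      funext s
      cases s with
      | none => simp [encode, push, ← e3]
      | some s =>
        by_cases hs : s = M.κ q
        · subst hs
          simp [encode, push, ← h2]
        · simp [encode, push, hs, e2 s hs]
  · rintro ⟨S', h', hO, he⟩
    have e1 : (S' (M.κ q)).map Sum.inl = w.map Sum.inl ++ U (some (M.κ q)) := by
      have := congrFun he (some (M.κ q))
      simpa [encode, push] using this
    have e2 : ∀ s, s ≠ M.κ q → (S' s).map Sum.inl = U (some s) := by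
      intro s hs
      have := congrFun he (some s)
      simpa [encode, push, hs] using this
    have e3 : h'.map Sum.inr = Sum.inr (q, o) :: U none := by
      have := congrFun he none
      simpa [encode, push] using this
    rcases Relation.ReflTransGen.cases_tail hO with heq | ⟨⟨q₁, S₁, h₁⟩, hO₁, hst⟩
    · simp only [Prod.mk.injEq] at heq
      rw [heq.2.2] at e3
      simp at e3
    · obtain ⟨o₁, z₁, w₁, a1, a2, a3, a4⟩ := hst
      simp only at a1 a2 a3 a4
      rw [a4, List.map_cons, List.cons.injEq] at e3
      obtain ⟨b1, b2⟩ := e3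
      have b1 := inr_inj b1
      simp only [Prod.mk.injEq] at b1
      obtain ⟨rfl, rfl⟩ := b1
      rw [hδ] at a2
      simp only [Option.some.injEq, Prod.mk.injEq, true_and] at a2
      subst a2
      subst a3
      rw [Function.update_self, List.map_append, List.append_cancel_left_eq] at e1
      refine ⟨S₁, h₁, hO₁, ?_⟩
      funext s
      cases s with
      | none => simp [encode, push, b2]
      | some s =>
        by_cases hs : s = M.κ q₁
        · subst hs
          simp [encode, push, a1, e1]
        · have := e2 s hs
          rw [Function.update_of_ne hs] at this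
          simp [encode, push, hs, this]

theorem halt_unique [DecidableEq K] {M : Mach K Γ Q} {c a b : Q × (K → List Γ)}
    (ha : M.Reaches c a) (hb : M.Reaches c b) (ha' : M.step a = none) (hb' : M.step b = none) :
    a = b := by
  rcases StateTransition.reaches_total (f := M.step) ha hb with h | h
  · rcases Relation.ReflTransGen.cases_head h with h | ⟨x, hx, _⟩
    · exact h
    · rw [ha'] at hx
      exact absurd hx (by simp)
  · rcases Relation.ReflTransGen.cases_head h with h | ⟨x, hx, _⟩
    · exact h.symm
    · rw [hb'] at hx
      exact absurd hx (by simp)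

/-- no accepting configuration occurs in a computation that halts without accepting -/
theorem orb_acc [DecidableEq K] {M : Mach K Γ Q} {acc : Q → Γ → Prop}
    (hacc : ∀ q o, acc q o → M.δ q o = none) {q₀ : Q}
    {S₀ : K → List Γ} {r : Q × (K → List Γ)} (hr : M.Reaches (q₀, S₀) r) (hh : M.step r = none)
    (hna : ∀ o z, r.2 (M.κ r.1) = o :: z → ¬ acc r.1 o) {q : Q} {o : Γ} (ha : acc q o)
    (U : Option K → List (Let Γ Q)) :
    ¬ ∃ S h, Orb M q₀ S₀ (q, S, h) ∧ encode S h = push U (some (M.κ q), .inl o) := by
  rintro ⟨S, h, hO, heq⟩
  have e1 : (S (M.κ q)).map Sum.inl = Sum.inl o :: U (some (M.κ q)) := by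
    have := congrFun heq (some (M.κ q))
    simpa [encode, push] using this
  rcases hS : S (M.κ q) with _ | ⟨o', z⟩
  · simp [hS] at e1
  · rw [hS, List.map_cons, List.cons.injEq] at e1
    have h1 : o' = o := Sum.inl_injective e1.1
    subst h1
    have h2 : M.step (q, S) = none := by
      simp [Mach.step, hS, hacc q o' ha]
    have h3 := halt_unique (orb_proj hO) hr h2 hh
    simp only at h3
    subst h3
    exact hna o' z hS ha

end Pool.Agent.H662R2.Orbit
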